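import Pool.Agent.K6.H25.MC.Stm

/-! Piece ABS (helper78): the correlation of a function of digits. -/

set_option autoImplicit false

namespace Pool.Agent.K6.H25.MC

lemma abs_point (a b c d a' b' c' d' : ℂ) (ha : ‖a‖ = 1) (hb : ‖b‖ = 1) (hc : ‖c‖ = 1)
    (hd : ‖d‖ = 1) (ha' : ‖a'‖ = 1) (hb' : ‖b'‖ = 1) (hc' : ‖c'‖ = 1) (hd' : ‖d'‖ = 1) :
    ‖a * (starRingEnd ℂ) b * (starRingEnd ℂ) c * d -
      a' * (starRingEnd ℂ) b' * (starRingEnd ℂ) c' * d'‖ ≤ 2 := by
  refine (norm_sub_le _ _).trans ?_
  simp only [norm_mul, RCLike.norm_conj, ha, hb, hc, hd, ha', hb', hc', hd']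
  norm_num

theorem t_ABS : S_ABS := by
  intro H H' U U' _ _ _ _ _ _ g g' D D' φ hφ
  classical
  let A : Equiv.Perm (H × H') := Equiv.addRight (g, 0)
  let B : Equiv.Perm (H × H') := Equiv.addRight (0, g')
  have hA1 : ∀ x : H × H', A x = (x.1 + g, x.2) := by
    intro x
    show x + (g, 0) = _
    ext <;> simp
  have hB1 : ∀ x : H × H', B x = (x.1, x.2 + g') := by
    intro x
    show x + (0, g') = _
    ext <;> simp
  have hA : ∀ (N : ℕ) (x : H × H'), (A ^ N) x = (x.1 + N • g, x.2) := by
    intro N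
    induction N with
    | zero => intro x; simp
    | succ N ih =>
      intro x
      rw [pow_succ', Equiv.Perm.mul_apply, ih, hA1, succ_nsmul, add_assoc]
  have hB : ∀ (N : ℕ) (x : H × H'), (B ^ N) x = (x.1, x.2 + N • g') := by
    intro N
    induction N with
    | zero => intro x; simp
    | succ N ih =>
      intro x
      rw [pow_succ', Equiv.Perm.mul_apply, ih, hB1, succ_nsmul, add_assoc]
  have hcomm : Commute A B := by
    refine Equiv.ext fun x => ?_
    rw [Equiv.Perm.mul_apply, Equiv.Perm.mul_apply, hA1, hB1, hB1, hA1]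
  have hAB : ∀ (N : ℕ) (x : H × H'), ((A * B) ^ N) x = (x.1 + N • g, x.2 + N • g') := by
    intro N x
    rw [hcomm.mul_pow, Equiv.Perm.mul_apply, hB, hA]
  let S : FS := { Ω := H × H', A := A, B := B, comm := hcomm, f := fun x => φ (D x.1) (D' x.2),
                  norm_f := fun x => hφ _ _ }
  refine ⟨S, ?_, ?_, ?_⟩
  · intro M hM
    refine Equiv.ext fun x => ?_
    show (A ^ M) x = x
    rw [hA, hM, add_zero]
  · intro M hM
    refine Equiv.ext fun x => ?_
    show (B ^ M) x = x
    rw [hB, hM, add_zero]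
  · intro N v v' δ h1 h2
    let F : H → H' → ℂ := fun x y => φ (D x) (D' y) * (starRingEnd ℂ) (φ (D (x + N • g)) (D' y)) *
      (starRingEnd ℂ) (φ (D x) (D' (y + N • g'))) * φ (D (x + N • g)) (D' (y + N • g'))
    let G : H → H' → ℂ := fun x y => φ (D x) (D' y) * (starRingEnd ℂ) (φ (D x + v) (D' y)) *
      (starRingEnd ℂ) (φ (D x) (D' y + v')) * φ (D x + v) (D' y + v')
    have hcor : S.cor (dg N) = (∑ x : H, ∑ y : H', F x y) /
        ((Fintype.card H : ℂ) * Fintype.card H') := by
      have e : S.cor (dg N) = (∑ x : H × H', F x.1 x.2) / (Fintype.card (H × H') : ℂ) := by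
        unfold FS.cor
        congr 1
        refine Finset.sum_congr rfl fun x _ => ?_
        show φ (D x.1) (D' x.2) * (starRingEnd ℂ) (φ (D ((A ^ (N : ℤ)) x).1) (D' ((A ^ (N : ℤ)) x).2)) *
          (starRingEnd ℂ) (φ (D ((B ^ (N : ℤ)) x).1) (D' ((B ^ (N : ℤ)) x).2)) *
          φ (D (((A * B) ^ (N : ℤ)) x).1) (D' (((A * B) ^ (N : ℤ)) x).2) = _
        simp only [zpow_natCast, hA, hB, hAB, F]
      rw [e, Fintype.sum_prod_type, Fintype.card_prod, Nat.cast_mul]
    show ‖S.cor (dg N) - (∑ x : H, ∑ y : H', G x y) /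
      ((Fintype.card H : ℂ) * Fintype.card H')‖ ≤ 4 * δ
    rw [hcor, ← sub_div, ← Finset.sum_sub_distrib]
    simp only [← Finset.sum_sub_distrib]
    have hH : (0 : ℝ) < Fintype.card H := by
      exact_mod_cast Fintype.card_pos_iff.2 ⟨(0 : H)⟩
    have hH' : (0 : ℝ) < Fintype.card H' := by
      exact_mod_cast Fintype.card_pos_iff.2 ⟨(0 : H')⟩
    let cx : H → ℝ := fun x => if D (x + N • g) ≠ D x + v then 1 else 0
    let cy : H' → ℝ := fun y => if D' (y + N • g') ≠ D' y + v' then 1 else 0
    have hpt : ∀ x y, ‖F x y - G x y‖ ≤ 2 * cx x + 2 * cy y := by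
      intro x y
      have h2' : ‖F x y - G x y‖ ≤ 2 :=
        abs_point _ _ _ _ _ _ _ _ (hφ _ _) (hφ _ _) (hφ _ _) (hφ _ _) (hφ _ _) (hφ _ _)
          (hφ _ _) (hφ _ _)
      have hcx : 0 ≤ cx x := by simp only [cx]; split_ifs <;> norm_num
      have hcy : 0 ≤ cy y := by simp only [cy]; split_ifs <;> norm_num
      by_cases hx : D (x + N • g) = D x + v
      · by_cases hy : D' (y + N • g') = D' y + v'
        · have : F x y = G x y := by simp only [F, G, hx, hy]
          rw [this, sub_self, norm_zero]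
          positivity
        · have : cy y = 1 := by simp only [cy]; rw [if_pos hy]
          rw [this]
          linarith
      · have : cx x = 1 := by simp only [cx]; rw [if_pos hx]
        rw [this]
        linarith
    have hcxs : ∑ x : H, cx x = (bad D g N v : ℝ) := by
      simp only [cx, bad]
      rw [Finset.sum_boole]
    have hcys : ∑ y : H', cy y = (bad D' g' N v' : ℝ) := by
      simp only [cy, bad]
      rw [Finset.sum_boole]
    have hsum : ‖∑ x : H, ∑ y : H', (F x y - G x y)‖ ≤
        4 * δ * ((Fintype.card H : ℝ) * Fintype.card H') := by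
      calc ‖∑ x : H, ∑ y : H', (F x y - G x y)‖
          ≤ ∑ x : H, ∑ y : H', (2 * cx x + 2 * cy y) := by
            refine (norm_sum_le _ _).trans (Finset.sum_le_sum fun x _ => ?_)
            exact (norm_sum_le _ _).trans (Finset.sum_le_sum fun y _ => hpt x y)
        _ = 2 * (bad D g N v : ℝ) * Fintype.card H' +
            2 * (bad D' g' N v' : ℝ) * Fintype.card H := by
            simp only [Finset.sum_add_distrib, Finset.sum_const, Finset.card_univ, nsmul_eq_mul,
              ← Finset.mul_sum, hcxs, hcys]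
            ring
        _ ≤ 2 * (δ * Fintype.card H) * Fintype.card H' +
            2 * (δ * Fintype.card H') * Fintype.card H := by
            gcongr
        _ = _ := by ring
    rw [norm_div, norm_mul]
    simp only [RCLike.norm_natCast]
    rw [div_le_iff₀ (by positivity)]
    exact hsum

end Pool.Agent.K6.H25.MC
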