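import Pool.Agent.K6.H25.MC.Stm

/-!
# MP_b4ed41_an, piece BLK: the block systems (matching vectors)
-/

set_option autoImplicit false

namespace Pool.Agent.K6.H25.MC

open Finset

section blk

variable {n q : ℕ}

/-- restriction of `b` to `S` -/
def rs (z : Fin q) (S : Finset (Fin n)) (b : Fin n → Fin q) : Fin n → Fin q :=
  fun i => if i ∈ S then b i else z

lemma rs_eq_iff (z : Fin q) (S : Finset (Fin n)) (b b' : Fin n → Fin q) :
    rs z S b = rs z S b' ↔ S ⊆ univ.filter (fun i => b i = b' i) := by
  constructor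
  · intro h i hi
    have := congrFun h i
    simp only [rs, hi, if_true] at this
    simp [this]
  · intro h
    funext i
    by_cases hi : i ∈ S
    · have := h hi
      simp only [mem_filter, mem_univ, true_and] at this
      simp [rs, hi, this]
    · simp [rs, hi]

/-- the set of indices belonging to `b` -/
def Sb {T : ℕ} (d : ℕ) (z : Fin q) (e : Finset (Fin n) × (Fin n → Fin q) ≃ Fin T)
    (b : Fin n → Fin q) : Finset (Fin T) :=
  (univ.filter (fun S : Finset (Fin n) => S.card ≤ d)).image (fun S => e (S, rs z S b))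

lemma sum_Sb {M : Type*} [AddCommMonoid M] {T : ℕ} (d : ℕ) (z : Fin q)
    (e : Finset (Fin n) × (Fin n → Fin q) ≃ Fin T) (b : Fin n → Fin q) (f : Fin T → M) :
    ∑ t ∈ Sb d z e b, f t =
      ∑ S ∈ univ.filter (fun S : Finset (Fin n) => S.card ≤ d), f (e (S, rs z S b)) := by
  unfold Sb
  rw [Finset.sum_image]
  intro S _ S' _ h
  have := e.injective h
  exact (Prod.mk.inj this).1

/-- the vector `u_b` -/
def uv {T p : ℕ} (z : Fin q) (e : Finset (Fin n) × (Fin n → Fin q) ≃ Fin T)
    (lam : Finset (Fin n) → ZMod p) (b : Fin n → Fin q) : Fin T → ZMod p :=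
  fun t => if (e.symm t).2 = rs z (e.symm t).1 b then lam (e.symm t).1 else 0

lemma uv_dot {T p : ℕ} (d : ℕ) (hpd : p ≤ d + 1) (z : Fin q)
    (e : Finset (Fin n) × (Fin n → Fin q) ≃ Fin T)
    (lam : Finset (Fin n) → ZMod p) (h0 : ∀ S, p ≤ S.card → lam S = 0)
    (hE : ∀ E : Finset (Fin n), ∑ S ∈ E.powerset, lam S = if p ∣ n - E.card then 1 else 0)
    (b b' : Fin n → Fin q) :
    ∑ t, uv z e lam b' t * (if t ∈ Sb d z e b then 1 else 0) =
      if p ∣ n - (univ.filter (fun i => b i = b' i)).card then 1 else 0 := by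
  rw [← hE]
  simp only [mul_ite, mul_one, mul_zero]
  rw [← Finset.sum_filter, Finset.filter_mem_eq_inter, Finset.univ_inter, sum_Sb]
  simp only [uv, Equiv.symm_apply_apply]
  rw [← Finset.sum_filter, Finset.filter_filter]
  apply Finset.sum_subset_zero_on_sdiff
  · intro S hS
    simp only [mem_filter, mem_univ, true_and] at hS
    rw [mem_powerset]
    exact (rs_eq_iff z S b b').1 hS.2
  · intro S hS
    rw [mem_sdiff, mem_powerset] at hS
    apply h0
    by_contra hc
    apply hS.2
    simp only [mem_filter, mem_univ, true_and]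
    exact ⟨by omega, (rs_eq_iff z S b b').2 hS.1⟩
  · intro S _
    rfl

lemma pow_val_add {r p : ℕ} [NeZero p] (α : ZMod r) (hα : α ^ p = 1) (s s' : ZMod p) :
    α ^ (s + s').val = α ^ s.val * α ^ s'.val := by
  rw [ZMod.val_add, ← pow_add]
  conv_rhs => rw [← Nat.mod_add_div (s.val + s'.val) p, pow_add, pow_mul, hα, one_pow, mul_one]

/-- the phase -/
def Fn {B : Type} [Fintype B] {T p p' r : ℕ} (α β : ZMod r) (c : B → ZMod r)
    (U : B → Fin T → ZMod p) (U' : B → Fin T → ZMod p') (x : Fin T → ZMod p)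
    (y : Fin T → ZMod p') : ZMod r :=
  ∑ b, c b * (α ^ (∑ t, U b t * x t).val * β ^ (∑ t, U' b t * y t).val)

lemma mixed {B : Type} [Fintype B] {T p p' r : ℕ} [NeZero p] [NeZero p'] (α β : ZMod r)
    (hα : α ^ p = 1) (hβ : β ^ p' = 1) (c : B → ZMod r) (U : B → Fin T → ZMod p)
    (U' : B → Fin T → ZMod p') (x v : Fin T → ZMod p) (y v' : Fin T → ZMod p') :
    Fn α β c U U' x y - Fn α β c U U' (x + v) y - Fn α β c U U' x (y + v') +
      Fn α β c U U' (x + v) (y + v') =
      ∑ b, c b * (α ^ (∑ t, U b t * x t).val * β ^ (∑ t, U' b t * y t).val) *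
        ((1 - α ^ (∑ t, U b t * v t).val) * (1 - β ^ (∑ t, U' b t * v' t).val)) := by
  have e1 : ∀ b, (∑ t, U b t * (x + v) t) = (∑ t, U b t * x t) + ∑ t, U b t * v t := by
    intro b
    rw [← Finset.sum_add_distrib]
    exact Finset.sum_congr rfl fun t _ => by rw [Pi.add_apply, mul_add]
  have e2 : ∀ b, (∑ t, U' b t * (y + v') t) = (∑ t, U' b t * y t) + ∑ t, U' b t * v' t := by
    intro b
    rw [← Finset.sum_add_distrib]
    exact Finset.sum_congr rfl fun t _ => by rw [Pi.add_apply, mul_add]
  unfold Fn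
  simp only [e1, e2, pow_val_add α hα, pow_val_add β hβ]
  rw [← Finset.sum_sub_distrib, ← Finset.sum_sub_distrib, ← Finset.sum_add_distrib]
  exact Finset.sum_congr rfl fun b _ => by ring

lemma char_mixed {r : ℕ} [NeZero r] (a1 a2 a3 a4 : ZMod r) :
    (ZMod.stdAddChar a1 : ℂ) * (starRingEnd ℂ) (ZMod.stdAddChar a2) *
      (starRingEnd ℂ) (ZMod.stdAddChar a3) * ZMod.stdAddChar a4 =
      ZMod.stdAddChar (a1 - a2 - a3 + a4) := by
  rw [← AddChar.map_neg_eq_conj, ← AddChar.map_neg_eq_conj, ← AddChar.map_add_eq_mul,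
    ← AddChar.map_add_eq_mul, ← AddChar.map_add_eq_mul]
  congr 1
  ring

end blk

theorem t_BLK (h1 : S_MV) (h2 : S_FLD) (h3 : S_DM) (h4 : S_ABS) (h5 : S_UNI) : S_BLK := by
  intro n d p p' q hp hp' hpp hpd hpd' hn hq w P K η hP hη
  have : Fact p.Prime := ⟨hp⟩
  have : Fact p'.Prime := ⟨hp'⟩
  obtain ⟨lam, hl0, hlE⟩ := h1 p n hp
  obtain ⟨lam', hl0', hlE'⟩ := h1 p' n hp'
  obtain ⟨r, hr, α, β, t0, hα, hα1, hβ, hβ1, hre⟩ := h2 p p' hp hp'
  set z : Fin q := ⟨0, hq⟩ with hz
  set T := Fintype.card (Finset (Fin n) × (Fin n → Fin q)) with hT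
  set e : Finset (Fin n) × (Fin n → Fin q) ≃ Fin T := Fintype.equivFin _ with he
  set δ : ℝ := min (1 / 200) (η / 8) with hδ
  have hδ0 : 0 < δ := by
    rw [hδ]; positivity
  have hδ1 : 4 * δ ≤ 1 / 20 := by
    have : δ ≤ 1 / 200 := min_le_left _ _
    linarith
  have hδ2 : 4 * δ ≤ η := by
    have : δ ≤ η / 8 := min_le_right _ _
    linarith
  obtain ⟨a, haP, hH⟩ := h3 T (p * p') P K δ (Nat.mul_pos hp.pos hp'.pos) hP hδ0
  obtain ⟨H, _, _, g, D, M, hM0, hMg, hDs, hDb, hDk⟩ := hH p hp.pos (Dvd.intro _ rfl)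
  obtain ⟨H', _, _, g', D', M', hM0', hMg', hDs', hDb', hDk'⟩ := hH p' hp'.pos (Dvd.intro_left _ rfl)
  classical
  set U := uv (p := p) z e lam with hU
  set U' := uv (p := p') z e lam' with hU'
  set c : (Fin n → Fin q) → ZMod r := fun b => if w b then 1 else 0 with hc
  set φ : (Fin T → ZMod p) → (Fin T → ZMod p') → ℂ := fun x y =>
    ZMod.stdAddChar (t0 * Fn α β c U U' x y) with hφ
  obtain ⟨S, hSA, hSB, hS⟩ := h4 H H' (Fin T → ZMod p) (Fin T → ZMod p') g g' D D' φ
    (fun u v => AddChar.norm_apply _ _)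
  have hmix : ∀ x v y v', φ x y * (starRingEnd ℂ) (φ (x + v) y) * (starRingEnd ℂ) (φ x (y + v')) *
      φ (x + v) (y + v') = ZMod.stdAddChar (t0 * ∑ b, c b *
        (α ^ (∑ t, U b t * x t).val * β ^ (∑ t, U' b t * y t).val) *
        ((1 - α ^ (∑ t, U b t * v t).val) * (1 - β ^ (∑ t, U' b t * v' t).val))) := by
    intro x v y v'
    simp only [hφ]
    rw [char_mixed, ← mixed α β hα hβ c U U' x v y v']
    congr 1
    ring
  -- the counts
  have hcard : ((Fintype.card H : ℂ) * Fintype.card H') ≠ 0 := by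
    have : Nonempty H := ⟨0⟩
    have : Nonempty H' := ⟨0⟩
    exact mul_ne_zero (Nat.cast_ne_zero.2 Fintype.card_ne_zero)
      (Nat.cast_ne_zero.2 Fintype.card_ne_zero)
  have hone : (∑ x : H, ∑ y : H', (1 : ℂ)) / ((Fintype.card H : ℂ) * Fintype.card H') = 1 := by
    simp only [Finset.sum_const, Finset.card_univ, nsmul_eq_mul, mul_one]
    exact div_self hcard
  -- the times
  set N : Finset (Fin n) → (Fin n → Fin q) → ℕ := fun S b =>
    if S.card ≤ d then a (e (S, rs z S b)) else 0 with hN
  have htot : ∀ b, tot N b = ∑ t ∈ Sb d z e b, a t := by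
    intro b
    rw [sum_Sb, Finset.sum_filter]
    rfl
  have hdotU : ∀ b b', ∑ t, U b' t * (if t ∈ Sb d z e b then 1 else 0) =
      if p ∣ n - (univ.filter (fun i => b i = b' i)).card then 1 else 0 :=
    fun b b' => uv_dot d hpd z e lam hl0 hlE b b'
  have hdotU' : ∀ b b', ∑ t, U' b' t * (if t ∈ Sb d z e b then 1 else 0) =
      if p' ∣ n - (univ.filter (fun i => b i = b' i)).card then 1 else 0 :=
    fun b b' => uv_dot d hpd' z e lam' hl0' hlE' b b'
  have hself : ∀ b : Fin n → Fin q, (univ.filter (fun i => b i = b i)).card = n := by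
    intro b
    simp
  have hfact : ∀ b b', b' ≠ b → ((1 - α ^ (∑ t, U b' t * (if t ∈ Sb d z e b then 1 else 0)).val) *
      (1 - β ^ (∑ t, U' b' t * (if t ∈ Sb d z e b then 1 else 0)).val)) = 0 := by
    intro b b' hb
    rw [hdotU, hdotU']
    by_cases hd1 : p ∣ n - (univ.filter (fun i => b i = b' i)).card
    · by_cases hd2 : p' ∣ n - (univ.filter (fun i => b i = b' i)).card
      · exfalso
        have hcop : Nat.Coprime p p' := (Nat.coprime_primes hp hp').2 hpp
        have hdv := Nat.Coprime.mul_dvd_of_dvd_of_dvd hcop hd1 hd2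
        have hlt : n - (univ.filter (fun i => b i = b' i)).card < p * p' :=
          lt_of_le_of_lt (Nat.sub_le _ _) hn
        have h0 : n - (univ.filter (fun i => b i = b' i)).card = 0 :=
          Nat.eq_zero_of_dvd_of_lt hdv hlt
        have hle : (univ.filter (fun i => b i = b' i)).card ≤ n := by
          calc _ ≤ (univ : Finset (Fin n)).card := Finset.card_le_card (Finset.filter_subset _ _)
            _ = n := by simp
        have heq : (univ.filter (fun i => b i = b' i)).card = (univ : Finset (Fin n)).card := by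
          rw [Finset.card_univ, Fintype.card_fin]; omega
        have huniv : univ.filter (fun i => b i = b' i) = (univ : Finset (Fin n)) :=
          Finset.eq_univ_of_card _ (by rw [heq]; simp)
        apply hb
        funext i
        have : i ∈ univ.filter (fun i => b i = b' i) := by rw [huniv]; exact mem_univ i
        exact ((mem_filter.1 this).2).symm
      · rw [if_neg hd2]; simp
    · rw [if_neg hd1]; simp
  refine ⟨S, M * M', N, Nat.mul_pos hM0 hM0', ?_, ?_, ⟨?_, ?_⟩, ?_, ?_, ?_⟩
  · exact hSA _ (by rw [mul_comm, mul_smul, hMg, smul_zero])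
  · exact hSB _ (by rw [mul_smul, hMg', smul_zero])
  · intro S b b' h
    have : rs z S b = rs z S b' := by
      rw [rs_eq_iff]
      intro i hi
      simp [h i hi]
    simp only [hN, this]
  · intro S b h
    simp only [hN]
    rw [if_neg (by omega)]
  · intro b
    rw [htot]
    exact Finset.dvd_sum fun t _ => haP t
  · intro k hk
    have := hS k 0 0 δ (hDk k hk) (hDk' k hk)
    refine le_trans (le_of_eq ?_) (le_trans this hδ2)
    congr 2
    rw [← hone]
    congr 1
    refine Finset.sum_congr rfl fun x _ => Finset.sum_congr rfl fun y _ => ?_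
    rw [hmix]
    simp
  · intro b
    have hb1 := hDb (Sb d z e b)
    have hb2 := hDb' (Sb d z e b)
    rw [← htot] at hb1 hb2
    have key := hS (tot N b) _ _ δ hb1 hb2
    have hval : ∀ x y, φ x y * (starRingEnd ℂ) (φ (x + fun t => if t ∈ Sb d z e b then 1 else 0) y) *
        (starRingEnd ℂ) (φ x (y + fun t => if t ∈ Sb d z e b then 1 else 0)) *
        φ (x + fun t => if t ∈ Sb d z e b then 1 else 0)
          (y + fun t => if t ∈ Sb d z e b then 1 else 0) =
        ZMod.stdAddChar (t0 * (c b * (α ^ (∑ t, U b t * x t).val * β ^ (∑ t, U' b t * y t).val) *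
          ((1 - α) * (1 - β)))) := by
      intro x y
      rw [hmix]
      congr 2
      rw [Finset.sum_eq_single b]
      · rw [hdotU, hdotU', hself, Nat.sub_self, if_pos (dvd_zero _), if_pos (dvd_zero _),
          ZMod.val_one, ZMod.val_one, pow_one, pow_one]
      · intro b' _ hb'
        rw [hfact b b' hb', mul_zero]
      · intro h
        exact absurd (mem_univ _) h
    constructor
    · intro hw
      refine le_trans (le_of_eq ?_) (le_trans key hδ1)
      congr 2
      rw [← hone]
      congr 1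
      refine Finset.sum_congr rfl fun x _ => Finset.sum_congr rfl fun y _ => ?_
      rw [hval]
      simp [hc, hw]
    · intro hw
      have hre2 : ((∑ x : H, ∑ y : H', φ (D x) (D' y) *
          (starRingEnd ℂ) (φ (D x + fun t => if t ∈ Sb d z e b then 1 else 0) (D' y)) *
          (starRingEnd ℂ) (φ (D x) (D' y + fun t => if t ∈ Sb d z e b then 1 else 0)) *
          φ (D x + fun t => if t ∈ Sb d z e b then 1 else 0)
            (D' y + fun t => if t ∈ Sb d z e b then 1 else 0)) /
          ((Fintype.card H : ℂ) * Fintype.card H')).re ≤ 0 := by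
        have hune : U b ≠ 0 := by
          intro h0
          have := hdotU b b
          rw [hself, Nat.sub_self, if_pos (dvd_zero _)] at this
          rw [h0] at this
          simp at this
        have hune' : U' b ≠ 0 := by
          intro h0
          have := hdotU' b b
          rw [hself, Nat.sub_self, if_pos (dvd_zero _)] at this
          rw [h0] at this
          simp at this
        have h5' := h5 p p' T H H' D D' hDs hDs' (U b) (U' b) hune hune'
          (fun i j => (ZMod.stdAddChar (t0 * ((1 - α) * (1 - β) * (α ^ i * β ^ j))) : ℂ).re) hre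
        have hcc : ((Fintype.card H : ℂ) * Fintype.card H') =
            (((Fintype.card H : ℝ) * Fintype.card H' : ℝ) : ℂ) := by push_cast; ring
        have hsum : (∑ x : H, ∑ y : H', φ (D x) (D' y) *
          (starRingEnd ℂ) (φ (D x + fun t => if t ∈ Sb d z e b then 1 else 0) (D' y)) *
          (starRingEnd ℂ) (φ (D x) (D' y + fun t => if t ∈ Sb d z e b then 1 else 0)) *
          φ (D x + fun t => if t ∈ Sb d z e b then 1 else 0)
            (D' y + fun t => if t ∈ Sb d z e b then 1 else 0)).re =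
          ∑ x : H, ∑ y : H', (ZMod.stdAddChar (t0 * ((1 - α) * (1 - β) *
            (α ^ (∑ t, U b t * D x t).val * β ^ (∑ t, U' b t * D' y t).val))) : ℂ).re := by
          rw [Complex.re_sum]
          refine Finset.sum_congr rfl fun x _ => ?_
          rw [Complex.re_sum]
          refine Finset.sum_congr rfl fun y _ => ?_
          rw [hval]
          congr 3
          simp only [hc, hw, if_true, one_mul]
          ring
        rw [hcc, Complex.div_ofReal_re, hsum]
        exact div_nonpos_of_nonpos_of_nonneg h5' (by positivity)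
      have hk2 := le_trans (Complex.abs_re_le_norm _) key
      rw [Complex.sub_re] at hk2
      have := (abs_le.1 hk2).2
      linarith

end Pool.Agent.K6.H25.MC
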