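import Pool.Agent.K6.H25.MC.Stm

/-!
# Piece CNT (helper58): signs uncorrelated with all functions of few colours
-/

set_option autoImplicit false

namespace Pool.Agent.K6.H25.MC

/-- sign -/
noncomputable def sgC (x : Bool) : ℝ := if x then -1 else 1

theorem sum_exp_le {B : Type*} [Fintype B] [DecidableEq B] (A : Finset B) (l : ℝ) :
    ∑ s : B → Bool, Real.exp (l * ∑ b ∈ A, sgC (s b)) ≤
      2 ^ (Fintype.card B) * Real.exp (l ^ 2 * Fintype.card B / 2) := by
  classical
  have h1 : ∀ s : B → Bool, Real.exp (l * ∑ b ∈ A, sgC (s b)) =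
      ∏ b : B, (if b ∈ A then Real.exp (l * sgC (s b)) else 1) := by
    intro s
    rw [Finset.mul_sum, Real.exp_sum, Finset.prod_ite_mem, Finset.univ_inter]
  have h2 : ∑ s : B → Bool, ∏ b : B, (if b ∈ A then Real.exp (l * sgC (s b)) else 1) =
      ∏ b : B, ∑ x : Bool, (if b ∈ A then Real.exp (l * sgC x) else 1) := by
    rw [Finset.prod_univ_sum, Fintype.piFinset_univ]
  have h3 : ∀ b : B, ∑ x : Bool, (if b ∈ A then Real.exp (l * sgC x) else 1) ≤
      2 * Real.exp (l ^ 2 / 2) := by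
    intro b
    have h4 : Real.cosh l ≤ Real.exp (l ^ 2 / 2) := Real.cosh_le_exp_half_sq l
    have h5 : (1 : ℝ) ≤ Real.exp (l ^ 2 / 2) := Real.one_le_exp (by positivity)
    by_cases hb : b ∈ A
    · simp only [hb, if_true, Fintype.sum_bool, sgC]
      rw [Real.cosh_eq] at h4
      simp only [mul_neg, mul_one, Bool.false_eq_true, if_false]
      linarith
    · simp only [hb, if_false, Fintype.sum_bool]
      linarith
  simp_rw [h1]
  rw [h2]
  calc ∏ b : B, ∑ x : Bool, (if b ∈ A then Real.exp (l * sgC x) else 1)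
      ≤ ∏ _b : B, (2 * Real.exp (l ^ 2 / 2)) := by
        apply Finset.prod_le_prod
        · intro b _
          apply Finset.sum_nonneg
          intro x _
          split_ifs
          · exact (Real.exp_pos _).le
          · exact zero_le_one
        · intro b _
          exact h3 b
    _ = 2 ^ (Fintype.card B) * Real.exp (l ^ 2 * Fintype.card B / 2) := by
        rw [Finset.prod_const, Finset.card_univ, mul_pow, ← Real.exp_nat_mul]
        congr 2
        ring

theorem card_ge_le {B : Type*} [Fintype B] [DecidableEq B] (A : Finset B) (l t : ℝ) :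
    ((Finset.univ.filter fun s : B → Bool => t ≤ l * ∑ b ∈ A, sgC (s b)).card : ℝ) * Real.exp t ≤
      2 ^ (Fintype.card B) * Real.exp (l ^ 2 * Fintype.card B / 2) := by
  classical
  refine le_trans ?_ (sum_exp_le A l)
  rw [← nsmul_eq_mul, ← Finset.sum_const]
  calc ∑ s ∈ Finset.univ.filter (fun s : B → Bool => t ≤ l * ∑ b ∈ A, sgC (s b)), Real.exp t
      ≤ ∑ s ∈ Finset.univ.filter (fun s : B → Bool => t ≤ l * ∑ b ∈ A, sgC (s b)),
        Real.exp (l * ∑ b ∈ A, sgC (s b)) := by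
        apply Finset.sum_le_sum
        intro s hs
        exact Real.exp_le_exp.mpr (Finset.mem_filter.mp hs).2
    _ ≤ _ := Finset.sum_le_sum_of_subset_of_nonneg (Finset.filter_subset _ _)
        (fun _ _ _ => (Real.exp_pos _).le)

/-- Hoeffding by counting -/
theorem card_bad_le {B : Type*} [Fintype B] [DecidableEq B] (A : Finset B) (η : ℝ) (hη : 0 < η) :
    ((Finset.univ.filter fun s : B → Bool => η * Fintype.card B ≤ |∑ b ∈ A, sgC (s b)|).card : ℝ) ≤
      2 * (2 ^ (Fintype.card B) * Real.exp (-(η ^ 2 * Fintype.card B / 2))) := by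
  classical
  have key : ∀ l : ℝ, l ^ 2 = η ^ 2 →
      ((Finset.univ.filter fun s : B → Bool =>
        η ^ 2 * Fintype.card B ≤ l * ∑ b ∈ A, sgC (s b)).card : ℝ) ≤
      2 ^ (Fintype.card B) * Real.exp (-(η ^ 2 * Fintype.card B / 2)) := by
    intro l hl
    have h1 := card_ge_le A l (η ^ 2 * Fintype.card B)
    rw [hl] at h1
    have h2 : Real.exp (-(η ^ 2 * Fintype.card B / 2)) =
        Real.exp (η ^ 2 * Fintype.card B / 2) / Real.exp (η ^ 2 * Fintype.card B) := by
      rw [← Real.exp_sub]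
      congr 1
      ring
    rw [h2, ← mul_div_assoc, le_div_iff₀ (Real.exp_pos _)]
    exact h1
  have hsub : (Finset.univ.filter fun s : B → Bool =>
      η * Fintype.card B ≤ |∑ b ∈ A, sgC (s b)|) ⊆
      (Finset.univ.filter fun s : B → Bool =>
        η ^ 2 * Fintype.card B ≤ η * ∑ b ∈ A, sgC (s b)) ∪
      (Finset.univ.filter fun s : B → Bool =>
        η ^ 2 * Fintype.card B ≤ (-η) * ∑ b ∈ A, sgC (s b)) := by
    intro s hs
    simp only [Finset.mem_filter, Finset.mem_univ, true_and, Finset.mem_union] at hs ⊢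
    rcases le_abs.mp hs with h | h
    · left
      nlinarith [mul_le_mul_of_nonneg_left h hη.le]
    · right
      nlinarith [mul_le_mul_of_nonneg_left h hη.le]
  have h3 := (Finset.card_le_card hsub).trans (Finset.card_union_le _ _)
  have h4 : ((Finset.univ.filter fun s : B → Bool =>
      η * Fintype.card B ≤ |∑ b ∈ A, sgC (s b)|).card : ℝ) ≤
      ((Finset.univ.filter fun s : B → Bool =>
        η ^ 2 * Fintype.card B ≤ η * ∑ b ∈ A, sgC (s b)).card : ℝ) +
      ((Finset.univ.filter fun s : B → Bool =>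
        η ^ 2 * Fintype.card B ≤ (-η) * ∑ b ∈ A, sgC (s b)).card : ℝ) := by
    exact_mod_cast h3
  have h5 := key η rfl
  have h6 := key (-η) (by ring)
  linarith

theorem pow_eq_exp' (m k : ℕ) (hm : 0 < m) : (m : ℝ) ^ k = Real.exp (k * Real.log m) := by
  rw [Real.exp_nat_mul, Real.exp_log (by exact_mod_cast hm)]

theorem numeric (n' m q : ℕ) (hm : 0 < m) (η : ℝ) (hη : 0 < η)
    (hq : 2 * (2 * (n' + 1) * Real.log m + 1) / η ^ 2 < q) (hq1 : 1 ≤ q) :
    ((((m ^ (q ^ n')) ^ (n' + 1) * m ^ (n' + 1) : ℕ)) : ℝ) *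
      (2 * (2 ^ (q ^ (n' + 1)) * Real.exp (-(η ^ 2 * (q ^ (n' + 1) : ℕ) / 2)))) <
      2 ^ (q ^ (n' + 1)) := by
  have hlog : 0 ≤ Real.log m := Real.log_nonneg (by exact_mod_cast hm)
  have hQ : (1 : ℝ) ≤ (q : ℝ) ^ n' := one_le_pow₀ (by exact_mod_cast hq1)
  have h1 : ((((m ^ (q ^ n')) ^ (n' + 1) * m ^ (n' + 1) : ℕ)) : ℝ) =
      Real.exp (((q : ℝ) ^ n' * (n' + 1) + (n' + 1)) * Real.log m) := by
    have : (m ^ (q ^ n')) ^ (n' + 1) * m ^ (n' + 1) = m ^ (q ^ n' * (n' + 1) + (n' + 1)) := by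
      rw [← pow_mul, ← pow_add]
    rw [this, Nat.cast_pow, pow_eq_exp' m _ hm]
    congr 2
    push_cast
    ring
  have h2 : (2 : ℝ) ≤ Real.exp ((q : ℝ) ^ n') := by
    have := Real.add_one_le_exp ((q : ℝ) ^ n')
    linarith
  have h3 : ((((m ^ (q ^ n')) ^ (n' + 1) * m ^ (n' + 1) : ℕ)) : ℝ) *
      (2 * Real.exp (-(η ^ 2 * (q ^ (n' + 1) : ℕ) / 2))) < 1 := by
    rw [h1]
    calc Real.exp (((q : ℝ) ^ n' * (n' + 1) + (n' + 1)) * Real.log m) *
          (2 * Real.exp (-(η ^ 2 * (q ^ (n' + 1) : ℕ) / 2)))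
        ≤ Real.exp (((q : ℝ) ^ n' * (n' + 1) + (n' + 1)) * Real.log m) *
          (Real.exp ((q : ℝ) ^ n') * Real.exp (-(η ^ 2 * (q ^ (n' + 1) : ℕ) / 2))) := by
          gcongr
      _ = Real.exp (((q : ℝ) ^ n' * (n' + 1) + (n' + 1)) * Real.log m + ((q : ℝ) ^ n' +
          -(η ^ 2 * (q ^ (n' + 1) : ℕ) / 2))) := by
          rw [Real.exp_add, Real.exp_add]
      _ < 1 := by
          rw [Real.exp_lt_one_iff]
          have h4 : 2 * (2 * (n' + 1) * Real.log m + 1) < q * η ^ 2 := by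
            rwa [div_lt_iff₀ (by positivity)] at hq
          have h5 : (n' + 1 : ℝ) * Real.log m ≤ (q : ℝ) ^ n' * ((n' + 1) * Real.log m) :=
            le_mul_of_one_le_left (by positivity) hQ
          have h6 : (q : ℝ) ^ n' * (2 * (2 * (n' + 1) * Real.log m + 1)) <
              (q : ℝ) ^ n' * (q * η ^ 2) := mul_lt_mul_of_pos_left h4 (by linarith)
          have h7 : ((q ^ (n' + 1) : ℕ) : ℝ) = (q : ℝ) ^ n' * q := by
            push_cast
            ring
          rw [h7]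
          nlinarith
  calc ((((m ^ (q ^ n')) ^ (n' + 1) * m ^ (n' + 1) : ℕ)) : ℝ) *
      (2 * (2 ^ (q ^ (n' + 1)) * Real.exp (-(η ^ 2 * (q ^ (n' + 1) : ℕ) / 2))))
      = 2 ^ (q ^ (n' + 1)) * (((((m ^ (q ^ n')) ^ (n' + 1) * m ^ (n' + 1) : ℕ)) : ℝ) *
      (2 * Real.exp (-(η ^ 2 * (q ^ (n' + 1) : ℕ) / 2)))) := by ring
    _ < 2 ^ (q ^ (n' + 1)) * 1 := mul_lt_mul_of_pos_left h3 (by positivity)
    _ = _ := mul_one _

theorem t_CNT : S_CNT := by
  classical
  intro n m hn ε hε
  obtain ⟨n', rfl⟩ : ∃ n', n = n' + 1 := ⟨n - 1, by omega⟩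
  rcases Nat.eq_zero_or_pos m with rfl | hm
  · refine ⟨1, fun _ => true, le_rfl, fun V => ?_⟩
    exact (V 0 (fun _ => 0)).elim0
  have hm' : (0 : ℝ) < m := by exact_mod_cast hm
  set η : ℝ := ε / (m : ℝ) ^ (n' + 1) with hηd
  have hη : 0 < η := by positivity
  obtain ⟨q, hq⟩ := exists_nat_gt (2 * (2 * (n' + 1) * Real.log m + 1) / η ^ 2)
  have hlog : 0 ≤ Real.log m := Real.log_nonneg (by exact_mod_cast hm)
  have hq1 : 1 ≤ q := by
    have h0 : (0 : ℝ) < q := lt_of_le_of_lt (by positivity) hq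
    exact_mod_cast h0
  set A : ((Fin (n' + 1) → (Fin n' → Fin q) → Fin m) × (Fin (n' + 1) → Fin m)) →
      Finset (Fin (n' + 1) → Fin q) :=
    fun p => Finset.univ.filter (fun b => ∀ i, p.1 i (fun j => b (i.succAbove j)) = p.2 i) with hA
  set bad' : ((Fin (n' + 1) → (Fin n' → Fin q) → Fin m) × (Fin (n' + 1) → Fin m)) →
      Finset ((Fin (n' + 1) → Fin q) → Bool) :=
    fun p => Finset.univ.filter (fun s =>
      η * Fintype.card (Fin (n' + 1) → Fin q) ≤ |∑ b ∈ A p, sgC (s b)|) with hbad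
  have hcB : Fintype.card (Fin (n' + 1) → Fin q) = q ^ (n' + 1) := by simp
  have hcard : (Finset.univ.biUnion bad').card <
      Fintype.card ((Fin (n' + 1) → Fin q) → Bool) := by
    have h1 : ((Finset.univ.biUnion bad').card : ℝ) ≤
        ∑ p : ((Fin (n' + 1) → (Fin n' → Fin q) → Fin m) × (Fin (n' + 1) → Fin m)),
          ((bad' p).card : ℝ) := by
      exact_mod_cast Finset.card_biUnion_le
    have h2 : ∑ p : ((Fin (n' + 1) → (Fin n' → Fin q) → Fin m) × (Fin (n' + 1) → Fin m)),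
          ((bad' p).card : ℝ) ≤
        ∑ _p : ((Fin (n' + 1) → (Fin n' → Fin q) → Fin m) × (Fin (n' + 1) → Fin m)),
          2 * (2 ^ (q ^ (n' + 1)) * Real.exp (-(η ^ 2 * (q ^ (n' + 1) : ℕ) / 2))) := by
      apply Finset.sum_le_sum
      intro p _
      have := card_bad_le (A p) η hη
      rw [hcB] at this
      simpa only [hbad, hcB] using this
    have h3 : ∑ _p : ((Fin (n' + 1) → (Fin n' → Fin q) → Fin m) × (Fin (n' + 1) → Fin m)),
          2 * (2 ^ (q ^ (n' + 1)) * Real.exp (-(η ^ 2 * (q ^ (n' + 1) : ℕ) / 2))) =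
        ((((m ^ (q ^ n')) ^ (n' + 1) * m ^ (n' + 1) : ℕ)) : ℝ) *
      (2 * (2 ^ (q ^ (n' + 1)) * Real.exp (-(η ^ 2 * (q ^ (n' + 1) : ℕ) / 2)))) := by
      rw [Finset.sum_const, nsmul_eq_mul]
      congr 1
      simp
    have h4 := numeric n' m q hm η hη hq hq1
    have h5 : ((Finset.univ.biUnion bad').card : ℝ) < 2 ^ (q ^ (n' + 1)) := by
      linarith
    have h6 : Fintype.card ((Fin (n' + 1) → Fin q) → Bool) = 2 ^ (q ^ (n' + 1)) := by simp
    rw [h6]
    exact_mod_cast h5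
  obtain ⟨s, hs⟩ : ∃ s, s ∉ Finset.univ.biUnion bad' := by
    by_contra hcon
    push Not at hcon
    have : Finset.univ.biUnion bad' = Finset.univ := Finset.eq_univ_iff_forall.mpr hcon
    rw [this, Finset.card_univ] at hcard
    exact lt_irrefl _ hcard
  refine ⟨q, s, hq1, ?_⟩
  intro V h hV hh
  have hs' : ∀ p, |∑ b ∈ A p, sgC (s b)| ≤ η * (q : ℝ) ^ (n' + 1) := by
    intro p
    by_contra hcon
    push Not at hcon
    apply hs
    rw [Finset.mem_biUnion]
    refine ⟨p, Finset.mem_univ _, ?_⟩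
    rw [hbad]
    simp only [Finset.mem_filter, Finset.mem_univ, true_and]
    rw [hcB]
    push_cast
    exact hcon.le
  -- the functions of n' coordinates
  have hq0 : 0 < q := hq1
  set W : Fin (n' + 1) → (Fin n' → Fin q) → Fin m :=
    fun i c => V i (i.insertNth (⟨0, hq0⟩ : Fin q) c) with hW
  have hVW : ∀ i b, V i b = W i (fun j => b (i.succAbove j)) := by
    intro i b
    rw [hW]
    apply hV
    intro j hj
    obtain ⟨j', rfl⟩ := Fin.exists_succAbove_eq hj
    simp
  have hsum : ∑ b, (if s b then (-1 : ℂ) else 1) * h (fun i => V i b) =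
      ∑ c : Fin (n' + 1) → Fin m, h c * ((∑ b ∈ A (W, c), sgC (s b) : ℝ) : ℂ) := by
    rw [← Finset.sum_fiberwise (s := Finset.univ) (g := fun b : Fin (n' + 1) → Fin q =>
      (fun i => V i b : Fin (n' + 1) → Fin m))]
    apply Finset.sum_congr rfl
    intro c _
    have hAc : A (W, c) = Finset.univ.filter (fun b : Fin (n' + 1) → Fin q =>
        (fun i => V i b : Fin (n' + 1) → Fin m) = c) := by
      ext b
      simp only [hA, Finset.mem_filter, Finset.mem_univ, true_and]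
      constructor
      · intro hb
        funext i
        rw [hVW, hb i]
      · intro hb i
        rw [← hVW, ← hb]
    rw [hAc, Complex.ofReal_sum, Finset.mul_sum]
    apply Finset.sum_congr rfl
    intro b hb
    rw [(Finset.mem_filter.mp hb).2, mul_comm]
    congr 1
    unfold sgC
    split_ifs <;> simp
  rw [hsum]
  calc ‖∑ c : Fin (n' + 1) → Fin m, h c * ((∑ b ∈ A (W, c), sgC (s b) : ℝ) : ℂ)‖
      ≤ ∑ c : Fin (n' + 1) → Fin m, ‖h c * ((∑ b ∈ A (W, c), sgC (s b) : ℝ) : ℂ)‖ :=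
        norm_sum_le _ _
    _ ≤ ∑ _c : Fin (n' + 1) → Fin m, η * (q : ℝ) ^ (n' + 1) := by
        apply Finset.sum_le_sum
        intro c _
        rw [norm_mul, Complex.norm_real, Real.norm_eq_abs]
        calc ‖h c‖ * |∑ b ∈ A (W, c), sgC (s b)| ≤ 1 * |∑ b ∈ A (W, c), sgC (s b)| := by
              gcongr
              exact hh c
          _ ≤ _ := by
              rw [one_mul]
              exact hs' _
    _ = ε * (q : ℝ) ^ (n' + 1) := by
        rw [Finset.sum_const, Finset.card_univ, nsmul_eq_mul]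
        have : ((Fintype.card (Fin (n' + 1) → Fin m) : ℕ) : ℝ) = (m : ℝ) ^ (n' + 1) := by simp
        rw [this, hηd]
        field_simp

end Pool.Agent.K6.H25.MC
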