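import Pool.Agent.K6.H25.MC.Stm

set_option autoImplicit false

namespace Pool.Agent.K6.H25.MC

namespace DM

lemma key (p a : ℕ) [NeZero (p * a)] (x : ZMod (p * a)) (N : ℕ) :
    (((x + (N : ZMod (p * a))).val / a : ℕ) : ZMod p) = (((x.val + N) / a : ℕ) : ZMod p) := by
  have h : x + (N : ZMod (p * a)) = ((x.val + N : ℕ) : ZMod (p * a)) := by
    push_cast
    rw [ZMod.natCast_zmod_val]
  rw [h, ZMod.val_natCast, Nat.mod_mul_left_div_self, ZMod.natCast_mod]

lemma div_small (a m r : ℕ) (ha : 0 < a) (h : m % a + r < a) : (m + r) / a = m / a := by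
  have h1 : m + r = (m % a + r) + a * (m / a) := by
    have := Nat.mod_add_div m a
    omega
  rw [h1, Nat.add_mul_div_left _ _ ha, Nat.div_eq_of_lt h, zero_add]

lemma count (p a r : ℕ) [NeZero (p * a)] (ha : 0 < a) :
    (Finset.univ.filter fun x : ZMod (p * a) => a ≤ x.val % a + r).card ≤ p * r := by
  classical
  calc (Finset.univ.filter fun x : ZMod (p * a) => a ≤ x.val % a + r).card
      ≤ (Finset.range p ×ˢ Finset.Ico (a - r) a).card := by
        refine Finset.card_le_card_of_injOn (fun x => (x.val / a, x.val % a)) ?_ ?_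
        · intro x hx
          have hx' := (Finset.mem_filter.1 hx).2
          have h1 := Nat.mod_lt x.val ha
          have h2 : x.val / a < p := by
            rw [Nat.div_lt_iff_lt_mul ha]
            exact ZMod.val_lt x
          simp only [Finset.coe_product, Set.mem_prod, Finset.mem_coe, Finset.mem_range,
            Finset.mem_Ico]
          exact ⟨h2, by omega, h1⟩
        · intro x _ y _ hxy
          simp only [Prod.mk.injEq] at hxy
          apply ZMod.val_injective
          rw [← Nat.mod_add_div x.val a, ← Nat.mod_add_div y.val a, hxy.1, hxy.2]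
    _ = p * (a - (a - r)) := by simp
    _ ≤ p * r := Nat.mul_le_mul_left _ (by omega)

lemma countPi {T : ℕ} (p : ℕ) (a : Fin T → ℕ) [∀ t, NeZero (p * a t)] (ha : ∀ t, 0 < a t)
    (t : Fin T) (r : ℕ) :
    ((Finset.univ.filter fun x : (∀ t, ZMod (p * a t)) => a t ≤ (x t).val % a t + r).card : ℝ) ≤
      (r : ℝ) / a t * Fintype.card (∀ t, ZMod (p * a t)) := by
  classical
  have h1 : (Finset.univ.filter fun x : (∀ t, ZMod (p * a t)) => a t ≤ (x t).val % a t + r) =
      Fintype.piFinset (Function.update (fun s => (Finset.univ : Finset (ZMod (p * a s)))) t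
        (Finset.univ.filter fun y : ZMod (p * a t) => a t ≤ y.val % a t + r)) := by
    ext x
    simp only [Finset.mem_filter, Finset.mem_univ, true_and, Fintype.mem_piFinset]
    constructor
    · intro hx s
      by_cases hs : s = t
      · subst hs
        rw [Function.update_self]
        exact Finset.mem_filter.2 ⟨Finset.mem_univ _, hx⟩
      · rw [Function.update_of_ne hs]
        exact Finset.mem_univ _
    · intro hx
      have := hx t
      rw [Function.update_self] at this
      exact (Finset.mem_filter.1 this).2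
  have hc := count p (a t) r (ha t)
  rw [h1, Fintype.card_piFinset, Fintype.card_pi, ← Finset.mul_prod_erase Finset.univ _
    (Finset.mem_univ t), ← Finset.mul_prod_erase Finset.univ (fun s => Fintype.card (ZMod (p * a s)))
    (Finset.mem_univ t), Function.update_self]
  have h2 : ∏ s ∈ Finset.univ.erase t, (Function.update
      (fun s => (Finset.univ : Finset (ZMod (p * a s)))) t
        (Finset.univ.filter fun y : ZMod (p * a t) => a t ≤ y.val % a t + r) s).card =
      ∏ s ∈ Finset.univ.erase t, Fintype.card (ZMod (p * a s)) := by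
    apply Finset.prod_congr rfl
    intro s hs
    rw [Function.update_of_ne (Finset.ne_of_mem_erase hs), Finset.card_univ]
  rw [h2, ZMod.card]
  push_cast
  have hpos : (0 : ℝ) < a t := by exact_mod_cast ha t
  have hc' : ((Finset.univ.filter fun y : ZMod (p * a t) => a t ≤ y.val % a t + r).card : ℝ) ≤
      p * r := by exact_mod_cast hc
  have hP : (0 : ℝ) ≤ ∏ s ∈ Finset.univ.erase t, (Fintype.card (ZMod (p * a s)) : ℝ) :=
    Finset.prod_nonneg fun _ _ => Nat.cast_nonneg _
  calc _ ≤ (p * r : ℝ) * ∏ s ∈ Finset.univ.erase t, (Fintype.card (ZMod (p * a s)) : ℝ) :=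
        mul_le_mul_of_nonneg_right hc' hP
    _ = _ := by field_simp

end DM

open DM

theorem t_DM : S_DM := by
  classical
  intro T L P K δ hL hP hδ
  set D₀ : ℕ := ⌈(T : ℝ) / δ⌉₊ + 2 with hD₀
  set Q : ℕ := L * D₀ with hQ
  set C₀ : ℕ := ⌈(T : ℝ) * K / δ⌉₊ + 1 with hC₀
  set c : ℕ := P * C₀ with hc
  have hc0 : 0 < c := Nat.mul_pos hP (by omega)
  have hQD : D₀ ≤ Q := Nat.le_mul_of_pos_left _ hL
  have hQ2 : 2 ≤ Q := by omega
  have hQr : (T : ℝ) / δ ≤ (Q : ℝ) - 1 := by
    have h1 := Nat.le_ceil ((T : ℝ) / δ)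
    have h2 : ((⌈(T : ℝ) / δ⌉₊ + 2 : ℕ) : ℝ) ≤ Q := by exact_mod_cast hQD
    push_cast at h2
    linarith
  have hcr : (T : ℝ) * K / δ ≤ c := by
    have h1 := Nat.le_ceil ((T : ℝ) * K / δ)
    have h2 : C₀ ≤ c := Nat.le_mul_of_pos_left _ hP
    have h3 : ((C₀ : ℕ) : ℝ) ≤ c := Nat.cast_le.2 h2
    rw [hC₀, Nat.cast_add, Nat.cast_one] at h3
    linarith
  refine ⟨fun t => c * Q ^ (t : ℕ), fun t => ?_, ?_⟩
  · exact Dvd.dvd.mul_right (Dvd.intro _ rfl) _
  intro p hp hpL
  set a : Fin T → ℕ := fun t => c * Q ^ (t : ℕ) with ha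
  have ha0 : ∀ t, 0 < a t := fun t => Nat.mul_pos hc0 (pow_pos (by omega) _)
  have hne : ∀ t, NeZero (p * a t) := fun t => ⟨(Nat.mul_pos hp (ha0 t)).ne'⟩
  have hac : ∀ t, c ≤ a t := fun t => Nat.le_mul_of_pos_right _ (pow_pos (by omega) _)
  refine ⟨∀ t, ZMod (p * a t), inferInstance, inferInstance, 1,
    fun x t => (((x t).val / a t : ℕ) : ZMod p), Fintype.card (∀ t, ZMod (p * a t)),
    Fintype.card_pos, card_nsmul_eq_zero, ?_, ?_, ?_⟩
  · intro t
    refine ⟨Pi.single t ((a t : ℕ) : ZMod (p * a t)), fun x => ?_⟩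
    funext s
    by_cases hs : s = t
    · subst hs
      simp only [Pi.add_apply, Pi.single_eq_same]
      rw [key, Nat.add_div_right _ (ha0 s)]
      push_cast
      rfl
    · simp only [Pi.add_apply]
      rw [Pi.single_eq_of_ne hs, Pi.single_eq_of_ne hs, add_zero, add_zero]
  · intro S
    -- lower part
    let low : Fin T → ℕ := fun t => ∑ s ∈ S.filter (fun s => s < t), a s
    have hlow : ∀ t, ((low t : ℕ) : ℝ) / a t ≤ 1 / ((Q : ℝ) - 1) := by
      intro t
      have hQ1 : (1 : ℝ) < Q := by exact_mod_cast (by omega : 1 < Q)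
      have hcp : (0 : ℝ) < c := by exact_mod_cast hc0
      have h1 : low t ≤ ∑ i ∈ Finset.range (t : ℕ), c * Q ^ i := by
        calc low t ≤ ∑ s ∈ Finset.univ.filter (fun s : Fin T => s < t), a s :=
              Finset.sum_le_sum_of_subset (Finset.filter_subset_filter _ (Finset.subset_univ _))
          _ = ∑ i ∈ (Finset.univ.filter (fun s : Fin T => s < t)).image (fun s : Fin T => (s : ℕ)),
                c * Q ^ i := by
              rw [Finset.sum_image]
              intro x _ y _ h
              exact Fin.ext h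
          _ ≤ ∑ i ∈ Finset.range (t : ℕ), c * Q ^ i := by
              apply Finset.sum_le_sum_of_subset
              intro i hi
              obtain ⟨s, hs, rfl⟩ := Finset.mem_image.1 hi
              exact Finset.mem_range.2 (Finset.mem_filter.1 hs).2
      have h2 : ((low t : ℕ) : ℝ) ≤ c * (((Q : ℝ) ^ (t : ℕ) - 1) / ((Q : ℝ) - 1)) := by
        rw [← geom_sum_eq hQ1.ne', Finset.mul_sum]
        exact_mod_cast h1
      have h3 : (0 : ℝ) < a t := by exact_mod_cast ha0 t
      rw [div_le_div_iff₀ h3 (by linarith)]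
      have h4 : ((a t : ℕ) : ℝ) = c * (Q : ℝ) ^ (t : ℕ) := by simp [ha]
      rw [h4, one_mul]
      calc ((low t : ℕ) : ℝ) * ((Q : ℝ) - 1)
          ≤ c * (((Q : ℝ) ^ (t : ℕ) - 1) / ((Q : ℝ) - 1)) * ((Q : ℝ) - 1) :=
            mul_le_mul_of_nonneg_right h2 (by linarith)
        _ = c * ((Q : ℝ) ^ (t : ℕ) - 1) := by
            rw [mul_assoc, div_mul_cancel₀ _ (by linarith)]
        _ ≤ c * (Q : ℝ) ^ (t : ℕ) := by
            apply mul_le_mul_of_nonneg_left _ hcp.le
            linarith
    have hgood : ∀ (x : ∀ t, ZMod (p * a t)) (t : Fin T), (x t).val % a t + low t < a t →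
        ((((x + (∑ s ∈ S, a s) • (1 : ∀ t, ZMod (p * a t))) t).val / a t : ℕ) : ZMod p) =
          (((x t).val / a t : ℕ) : ZMod p) + (if t ∈ S then 1 else 0) := by
      intro x t hx
      have e1 : (x + (∑ s ∈ S, a s) • (1 : ∀ t, ZMod (p * a t))) t =
          x t + ((∑ s ∈ S, a s : ℕ) : ZMod (p * a t)) := by
        simp [Pi.add_apply]
      rw [e1, key]
      -- decomposition of the sum
      have hup : ∃ m : ℕ, ∑ s ∈ S.filter (fun s => t < s), a s = a t * (p * m) := by
        have : a t * p ∣ ∑ s ∈ S.filter (fun s => t < s), a s := by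
          apply Finset.dvd_sum
          intro s hs
          have hts : (t : ℕ) < s := (Finset.mem_filter.1 hs).2
          have e2 : a s = a t * (Q * Q ^ ((s : ℕ) - t - 1)) := by
            have e3 : (s : ℕ) = (t : ℕ) + (((s : ℕ) - t - 1) + 1) := by omega
            simp only [ha]
            rw [← pow_succ', mul_assoc c, ← pow_add, ← e3]
          rw [e2]
          exact mul_dvd_mul_left _ (Dvd.dvd.mul_right ((hpL.trans (Dvd.intro _ rfl))) _)
        obtain ⟨m, hm⟩ := this
        exact ⟨m, by rw [hm]; ring⟩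
      obtain ⟨m, hm⟩ := hup
      have hsum : ∑ s ∈ S, a s = low t + a t * ((if t ∈ S then 1 else 0) + p * m) := by
        have e3 : ∑ s ∈ S, a s = ∑ s ∈ S.filter (fun s => s < t), a s +
            (∑ s ∈ S.filter (fun s => s = t), a s + ∑ s ∈ S.filter (fun s => t < s), a s) := by
          rw [← Finset.sum_filter_add_sum_filter_not S (fun s => s < t)]
          congr 1
          rw [← Finset.sum_filter_add_sum_filter_not (S.filter fun s => ¬ s < t) (fun s => s = t),
            Finset.filter_filter, Finset.filter_filter]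
          congr 1
          · apply Finset.sum_congr _ (fun _ _ => rfl)
            ext s
            simp only [Finset.mem_filter, not_lt]
            constructor
            · rintro ⟨h1, -, h3⟩; exact ⟨h1, h3⟩
            · rintro ⟨h1, h3⟩; exact ⟨h1, h3.ge, h3⟩
          · apply Finset.sum_congr _ (fun _ _ => rfl)
            ext s
            simp only [Finset.mem_filter, not_lt]
            constructor
            · rintro ⟨h1, h2, h3⟩; exact ⟨h1, lt_of_le_of_ne h2 (Ne.symm h3)⟩
            · rintro ⟨h1, h3⟩; exact ⟨h1, h3.le, h3.ne'⟩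
        have e4 : ∑ s ∈ S.filter (fun s => s = t), a s = a t * (if t ∈ S then 1 else 0) := by
          by_cases ht : t ∈ S
          · rw [if_pos ht, mul_one, Finset.filter_eq' S t, if_pos ht, Finset.sum_singleton]
          · rw [if_neg ht, mul_zero, Finset.filter_eq' S t, if_neg ht, Finset.sum_empty]
        rw [e3, e4, hm]
        ring
      have e5 : (x t).val + ∑ s ∈ S, a s =
          ((x t).val + low t) + a t * ((if t ∈ S then 1 else 0) + p * m) := by
        rw [hsum]; ring
      rw [e5, Nat.add_mul_div_left _ _ (ha0 t), div_small _ _ _ (ha0 t) hx]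
      push_cast
      rw [ZMod.natCast_self, zero_mul, add_zero]
    have hsub : (Finset.univ.filter fun x : (∀ t, ZMod (p * a t)) =>
        (fun t => ((((x + (∑ s ∈ S, a s) • (1 : ∀ t, ZMod (p * a t))) t).val / a t : ℕ) : ZMod p)) ≠
          (fun t => (((x t).val / a t : ℕ) : ZMod p)) + (fun t => if t ∈ S then 1 else 0)) ⊆
        Finset.univ.biUnion fun t => Finset.univ.filter
          fun x : (∀ t, ZMod (p * a t)) => a t ≤ (x t).val % a t + low t := by
      intro x hx
      have hx' := (Finset.mem_filter.1 hx).2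
      by_contra hcon
      apply hx'
      funext t
      have : ¬ a t ≤ (x t).val % a t + low t := by
        intro h
        exact hcon (Finset.mem_biUnion.2 ⟨t, Finset.mem_univ _, Finset.mem_filter.2
          ⟨Finset.mem_univ _, h⟩⟩)
      exact hgood x t (not_le.1 this)
    have hb : (bad (fun (x : ∀ t, ZMod (p * a t)) t => (((x t).val / a t : ℕ) : ZMod p)) 1
        (∑ t ∈ S, a t) (fun t => if t ∈ S then 1 else 0) : ℝ) ≤
        ∑ t, ((low t : ℕ) : ℝ) / a t * Fintype.card (∀ t, ZMod (p * a t)) := by
      have h1 : bad (fun (x : ∀ t, ZMod (p * a t)) t => (((x t).val / a t : ℕ) : ZMod p)) 1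
          (∑ t ∈ S, a t) (fun t => if t ∈ S then 1 else 0) ≤ ∑ t, (Finset.univ.filter
          fun x : (∀ t, ZMod (p * a t)) => a t ≤ (x t).val % a t + low t).card := by
        unfold bad
        exact (Finset.card_le_card (by convert hsub)).trans Finset.card_biUnion_le
      calc (bad (fun (x : ∀ t, ZMod (p * a t)) t => (((x t).val / a t : ℕ) : ZMod p)) 1
          (∑ t ∈ S, a t) (fun t => if t ∈ S then 1 else 0) : ℝ)
          ≤ ((∑ t, (Finset.univ.filter
          fun x : (∀ t, ZMod (p * a t)) => a t ≤ (x t).val % a t + low t).card : ℕ) : ℝ) := by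
            exact_mod_cast h1
        _ ≤ _ := by
            push_cast
            exact Finset.sum_le_sum fun t _ => countPi p a ha0 t (low t)
    refine hb.trans ?_
    rw [← Finset.sum_mul]
    apply mul_le_mul_of_nonneg_right _ (Nat.cast_nonneg _)
    calc ∑ t, ((low t : ℕ) : ℝ) / a t ≤ ∑ _t : Fin T, 1 / ((Q : ℝ) - 1) :=
          Finset.sum_le_sum fun t _ => hlow t
      _ = T / ((Q : ℝ) - 1) := by simp [div_eq_mul_inv]
      _ ≤ δ := by
          have hQ1 : (0 : ℝ) < (Q : ℝ) - 1 := by
            have : (2 : ℝ) ≤ Q := by exact_mod_cast hQ2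
            linarith
          rw [div_le_iff₀ hQ1]
          rw [div_le_iff₀ hδ] at hQr
          linarith
  · intro k hk
    have hsub : (Finset.univ.filter fun x : (∀ t, ZMod (p * a t)) =>
        (fun t => ((((x + k • (1 : ∀ t, ZMod (p * a t))) t).val / a t : ℕ) : ZMod p)) ≠
          (fun t => (((x t).val / a t : ℕ) : ZMod p)) + 0) ⊆
        Finset.univ.biUnion fun t => Finset.univ.filter
          fun x : (∀ t, ZMod (p * a t)) => a t ≤ (x t).val % a t + k := by
      intro x hx
      have hx' := (Finset.mem_filter.1 hx).2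
      by_contra hcon
      apply hx'
      funext t
      have h1 : ¬ a t ≤ (x t).val % a t + k := by
        intro h
        exact hcon (Finset.mem_biUnion.2 ⟨t, Finset.mem_univ _, Finset.mem_filter.2
          ⟨Finset.mem_univ _, h⟩⟩)
      have e1 : (x + k • (1 : ∀ t, ZMod (p * a t))) t = x t + ((k : ℕ) : ZMod (p * a t)) := by
        simp [Pi.add_apply]
      rw [e1, key, div_small _ _ _ (ha0 t) (not_le.1 h1)]
      simp
    have h1 : bad (fun (x : ∀ t, ZMod (p * a t)) t => (((x t).val / a t : ℕ) : ZMod p)) 1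
        k 0 ≤ ∑ t, (Finset.univ.filter
        fun x : (∀ t, ZMod (p * a t)) => a t ≤ (x t).val % a t + k).card := by
      unfold bad
      exact (Finset.card_le_card (by convert hsub)).trans Finset.card_biUnion_le
    calc (bad (fun (x : ∀ t, ZMod (p * a t)) t => (((x t).val / a t : ℕ) : ZMod p)) 1 k 0 : ℝ)
        ≤ ((∑ t, (Finset.univ.filter
        fun x : (∀ t, ZMod (p * a t)) => a t ≤ (x t).val % a t + k).card : ℕ) : ℝ) := by
          exact_mod_cast h1
      _ ≤ ∑ t, (k : ℝ) / a t * Fintype.card (∀ t, ZMod (p * a t)) := by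
          push_cast
          exact Finset.sum_le_sum fun t _ => countPi p a ha0 t k
      _ = (∑ t, (k : ℝ) / a t) * Fintype.card (∀ t, ZMod (p * a t)) := by rw [Finset.sum_mul]
      _ ≤ δ * Fintype.card (∀ t, ZMod (p * a t)) := by
          apply mul_le_mul_of_nonneg_right _ (Nat.cast_nonneg _)
          have hcp : (0 : ℝ) < c := by exact_mod_cast hc0
          calc ∑ t, (k : ℝ) / a t ≤ ∑ _t : Fin T, (K : ℝ) / c := by
                apply Finset.sum_le_sum
                intro t _
                have h2 : (c : ℝ) ≤ a t := by exact_mod_cast hac t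
                have h3 : (k : ℝ) ≤ K := by exact_mod_cast hk
                exact div_le_div₀ (Nat.cast_nonneg _) h3 hcp h2
            _ = T * K / c := by simp [mul_div_assoc]
            _ ≤ δ := by
                rw [div_le_iff₀ hcp]
                rw [div_le_iff₀ hδ] at hcr
                linarith

end Pool.Agent.K6.H25.MC
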