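import Pool.Agent.K6.H25.MC.Stm

set_option autoImplicit false

namespace Pool.Agent.K6.H25.MC

lemma exists_root_of_dvd {r p : ℕ} [Fact r.Prime] (hp : p.Prime) (h : p ∣ r - 1) :
    ∃ α : ZMod r, α ^ p = 1 ∧ α ≠ 1 := by
  have : Fact p.Prime := ⟨hp⟩
  have hc : p ∣ Nat.card (ZMod r)ˣ := by
    rw [Nat.card_eq_fintype_card, ZMod.card_units_eq_totient, Nat.totient_prime Fact.out]
    exact h
  obtain ⟨u, hu⟩ := exists_prime_orderOf_dvd_card' (G := (ZMod r)ˣ) p hc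
  refine ⟨(u : ZMod r), ?_, ?_⟩
  · have : u ^ p = 1 := by rw [← hu]; exact pow_orderOf_eq_one u
    have h2 := congrArg (fun v : (ZMod r)ˣ => (v : ZMod r)) this
    simpa using h2
  · intro h1
    have : u = 1 := Units.ext (by simpa using h1)
    rw [this, orderOf_one] at hu
    exact hp.one_lt.ne hu

theorem t_FLD : S_FLD := by
  intro p p' hp hp'
  have hk : p * p' ≠ 0 := mul_ne_zero hp.ne_zero hp'.ne_zero
  obtain ⟨r, hr, -, hmod⟩ := Nat.exists_prime_gt_modEq_one 0 hk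
  have : Fact r.Prime := ⟨hr⟩
  have : NeZero r := ⟨hr.ne_zero⟩
  have hd : p * p' ∣ r - 1 := (Nat.modEq_iff_dvd' hr.one_lt.le).1 hmod.symm
  obtain ⟨α, hα, hα1⟩ := exists_root_of_dvd (r := r) hp ((Dvd.intro _ rfl).trans hd)
  obtain ⟨β, hβ, hβ1⟩ := exists_root_of_dvd (r := r) hp' ((Dvd.intro_left _ rfl).trans hd)
  have hα0 : α ≠ 0 := by
    rintro rfl
    rw [zero_pow hp.ne_zero] at hα
    exact zero_ne_one hα
  have hβ0 : β ≠ 0 := by
    rintro rfl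
    rw [zero_pow hp'.ne_zero] at hβ
    exact zero_ne_one hβ
  refine ⟨r, ⟨hr⟩, α, β, ?_⟩
  set c : ℕ → ℕ → ZMod r := fun i j => (1 - α) * (1 - β) * (α ^ i * β ^ j) with hc
  have hc0 : ∀ i j, c i j ≠ 0 := fun i j =>
    mul_ne_zero (mul_ne_zero (sub_ne_zero.2 (Ne.symm hα1)) (sub_ne_zero.2 (Ne.symm hβ1)))
      (mul_ne_zero (pow_ne_zero _ hα0) (pow_ne_zero _ hβ0))
  have hs : ∀ i j, ∑ t : ZMod r, (ZMod.stdAddChar (t * c i j) : ℂ) = 0 := by
    intro i j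
    have := AddChar.sum_mulShift (R := ZMod r) (R' := ℂ) (c i j)
      (ZMod.isPrimitive_stdAddChar r)
    rw [this, if_neg (hc0 i j)]
    simp
  by_contra hcon
  have hall : ∀ t : ZMod r, 0 < ∑ i ∈ Finset.range p, ∑ j ∈ Finset.range p',
      (ZMod.stdAddChar (t * c i j) : ℂ).re := by
    intro t
    by_contra ht
    exact hcon ⟨t, hα, hα1, hβ, hβ1, not_lt.1 ht⟩
  have hpos : 0 < ∑ t : ZMod r, ∑ i ∈ Finset.range p, ∑ j ∈ Finset.range p',
      (ZMod.stdAddChar (t * c i j) : ℂ).re :=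
    Finset.sum_pos (fun t _ => hall t) ⟨0, Finset.mem_univ _⟩
  have hzero : ∑ t : ZMod r, ∑ i ∈ Finset.range p, ∑ j ∈ Finset.range p',
      (ZMod.stdAddChar (t * c i j) : ℂ).re = 0 := by
    rw [Finset.sum_comm]
    refine Finset.sum_eq_zero fun i _ => ?_
    rw [Finset.sum_comm]
    refine Finset.sum_eq_zero fun j _ => ?_
    rw [← Complex.re_sum, hs i j, Complex.zero_re]
  linarith

end Pool.Agent.K6.H25.MC
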