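import Pool.Agent.K6.H25.MC.Stm

/-! Limits of correlation sequences of finite systems (helper72). -/

set_option autoImplicit false

open MeasureTheory Filter Topology
open scoped ENNReal

namespace Pool.Agent.K6.H25.MC

namespace Lim

noncomputable local instance : MeasurableSpace Circle := borel Circle
local instance : BorelSpace Circle := ⟨rfl⟩
local instance : SecondCountableTopology Circle :=
  inferInstanceAs (SecondCountableTopology (Submonoid.unitSphere ℂ))

/-- fields of numbers of modulus one on `ℤ²` -/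
abbrev XX : Type := ℤ × ℤ → Circle

/-- the shift by `(a, b)` -/
def sh (a b : ℤ) : XX → XX := fun ω p => ω (p.1 + a, p.2 + b)

theorem sh_continuous (a b : ℤ) : Continuous (sh a b) :=
  continuous_pi fun p => continuous_apply _

theorem sh_sh (a b c d : ℤ) (ω : XX) : sh a b (sh c d ω) = sh (a + c) (b + d) ω := by
  funext p
  simp only [sh]
  rw [add_assoc, add_assoc]

theorem sh_zero (ω : XX) : sh 0 0 ω = ω := by
  funext p
  simp [sh]

/-- the shift as a permutation -/
def shE (a b : ℤ) : Equiv.Perm XX where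
  toFun := sh a b
  invFun := sh (-a) (-b)
  left_inv ω := by rw [sh_sh]; simp [sh_zero]
  right_inv ω := by rw [sh_sh]; simp [sh_zero]

theorem shE_apply (a b : ℤ) (ω : XX) : shE a b ω = sh a b ω := rfl

theorem shE_symm (a b : ℤ) : (shE a b).symm = shE (-a) (-b) := by
  apply Equiv.ext
  intro ω
  rfl

theorem shE_mul (a b c d : ℤ) : shE a b * shE c d = shE (a + c) (b + d) := by
  apply Equiv.ext
  intro ω
  rw [Equiv.Perm.mul_apply, shE_apply, shE_apply, shE_apply, sh_sh]

/-- the shifts as a homomorphism -/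
def shHom : Multiplicative (ℤ × ℤ) →* Equiv.Perm XX where
  toFun v := shE v.toAdd.1 v.toAdd.2
  map_one' := by
    apply Equiv.ext
    intro ω
    exact sh_zero ω
  map_mul' u v := by rw [shE_mul]; rfl

theorem shE_zpow (a b n : ℤ) : shE a b ^ n = shE (n * a) (n * b) := by
  have h := map_zpow shHom (Multiplicative.ofAdd ((a, b) : ℤ × ℤ)) n
  have h2 : (Multiplicative.ofAdd ((a, b) : ℤ × ℤ)) ^ n =
      Multiplicative.ofAdd ((n * a, n * b) : ℤ × ℤ) := by
    rw [← ofAdd_zsmul]
    simp [Prod.smul_mk]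
  rw [h2] at h
  exact h.symm

/-- the field of a point of a finite system -/
noncomputable def fld (S : FS) (x : S.Ω) : XX := fun p =>
  ⟨S.f ((S.A ^ p.1 * S.B ^ p.2) x), mem_sphere_zero_iff_norm.2 (S.norm_f _)⟩

theorem fld_coe (S : FS) (x : S.Ω) (p : ℤ × ℤ) :
    ((fld S x p : Circle) : ℂ) = S.f ((S.A ^ p.1 * S.B ^ p.2) x) := rfl

theorem comm_zpow (S : FS) (a b : ℤ) : Commute (S.A ^ a) (S.B ^ b) :=
  (S.comm.zpow_left a).zpow_right b

theorem fld_shift (S : FS) (x : S.Ω) (a b : ℤ) :
    fld S ((S.A ^ a * S.B ^ b) x) = sh a b (fld S x) := by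
  funext p
  apply Subtype.ext
  show S.f ((S.A ^ p.1 * S.B ^ p.2) ((S.A ^ a * S.B ^ b) x)) =
    S.f ((S.A ^ (p.1 + a) * S.B ^ (p.2 + b)) x)
  rw [← Equiv.Perm.mul_apply]
  congr 2
  rw [zpow_add, zpow_add]
  have h := (comm_zpow S a p.2).eq
  calc S.A ^ p.1 * S.B ^ p.2 * (S.A ^ a * S.B ^ b)
      = S.A ^ p.1 * (S.B ^ p.2 * S.A ^ a) * S.B ^ b := by simp only [mul_assoc]
    _ = S.A ^ p.1 * (S.A ^ a * S.B ^ p.2) * S.B ^ b := by rw [h]
    _ = _ := by simp only [mul_assoc]

/-- the law of the field of a random point of a finite system -/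
noncomputable def mS (S : FS) : Measure XX :=
  (Fintype.card S.Ω : ℝ≥0∞)⁻¹ • ∑ x : S.Ω, Measure.dirac (fld S x)

theorem mS_apply (S : FS) {s : Set XX} (hs : MeasurableSet s) :
    mS S s = (Fintype.card S.Ω : ℝ≥0∞)⁻¹ * ∑ x : S.Ω, s.indicator 1 (fld S x) := by
  simp only [mS, Measure.smul_apply, Measure.finset_sum_apply, smul_eq_mul]
  congr 1
  refine Finset.sum_congr rfl fun x _ => ?_
  rw [Measure.dirac_apply' _ hs]

instance (S : FS) : IsProbabilityMeasure (mS S) := by
  constructor
  rw [mS_apply S MeasurableSet.univ]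
  simp only [Set.indicator_univ, Pi.one_apply, Finset.sum_const, Finset.card_univ, nsmul_eq_mul,
    mul_one]
  exact ENNReal.inv_mul_cancel (by exact_mod_cast Fintype.card_ne_zero) (ENNReal.natCast_ne_top _)

theorem mS_map (S : FS) (a b : ℤ) : (mS S).map (sh a b) = mS S := by
  ext s hs
  have hm : Measurable (sh a b) := (sh_continuous a b).measurable
  rw [Measure.map_apply hm hs, mS_apply S hs, mS_apply S (hm hs)]
  congr 1
  rw [← Equiv.sum_comp (S.A ^ a * S.B ^ b) (fun x => s.indicator (1 : XX → ℝ≥0∞) (fld S x))]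
  refine Finset.sum_congr rfl fun x _ => ?_
  rw [fld_shift]
  rfl

theorem integral_mS (S : FS) (F : BoundedContinuousFunction XX ℂ) :
    ∫ ω, F ω ∂(mS S) = (∑ x : S.Ω, F (fld S x)) / (Fintype.card S.Ω : ℂ) := by
  rw [mS, integral_smul_measure, integral_finset_sum_measure]
  · simp only [integral_dirac]
    rw [ENNReal.toReal_inv, ENNReal.toReal_natCast, Complex.real_smul]
    push_cast
    rw [div_eq_inv_mul]
  · intro x _
    exact F.integrable _

/-- the integrand of the correlation sequence -/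
noncomputable def Phi (n : Fin 3 → ℤ) : BoundedContinuousFunction XX ℂ :=
  BoundedContinuousFunction.mkOfCompact
    ⟨fun ω => (ω (0, 0) : ℂ) * ((starRingEnd ℂ) (ω (n 0, 0) : ℂ) *
      (starRingEnd ℂ) (ω (0, n 1) : ℂ) * (ω (n 2, n 2) : ℂ)), by
      have h : ∀ p : ℤ × ℤ, Continuous fun ω : XX => ((ω p : Circle) : ℂ) := fun p =>
        continuous_subtype_val.comp (continuous_apply p)
      exact (h _).mul ((((Complex.continuous_conj.comp (h _))).mul
        (Complex.continuous_conj.comp (h _))).mul (h _))⟩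

theorem Phi_apply (n : Fin 3 → ℤ) (ω : XX) : Phi n ω =
    (ω (0, 0) : ℂ) * ((starRingEnd ℂ) (ω (n 0, 0) : ℂ) *
      (starRingEnd ℂ) (ω (0, n 1) : ℂ) * (ω (n 2, n 2) : ℂ)) := rfl

theorem cor_eq (S : FS) (n : Fin 3 → ℤ) : S.cor n = ∫ ω, Phi n ω ∂(mS S) := by
  rw [integral_mS, FS.cor]
  congr 1
  refine Finset.sum_congr rfl fun x _ => ?_
  rw [Phi_apply, fld_coe, fld_coe, fld_coe, fld_coe]
  simp only [zpow_zero, one_mul, mul_one, Equiv.Perm.coe_one, id_eq]
  rw [S.comm.mul_zpow]
  ring

theorem main : S_LIM := by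
  intro S
  obtain ⟨pm, hpm⟩ : ∃ pm : ℕ → ProbabilityMeasure XX,
      ∀ J, (pm J : Measure XX) = mS (S J) := ⟨fun J => ⟨mS (S J), inferInstance⟩, fun J => rfl⟩
  obtain ⟨μ, hμ⟩ : ∃ μ : ProbabilityMeasure XX, Tendsto pm (hyperfilter ℕ : Filter ℕ) (𝓝 μ) :=
    ⟨((hyperfilter ℕ).map pm).lim, ((hyperfilter ℕ).map pm).le_nhds_lim⟩
  have hinv : ∀ a b : ℤ, (μ : Measure XX).map (sh a b) = μ := by
    intro a b
    have h1 : Tendsto (fun J => (pm J).map (sh_continuous a b).measurable.aemeasurable)
        (hyperfilter ℕ : Filter ℕ) (𝓝 (μ.map (sh_continuous a b).measurable.aemeasurable)) :=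
      ((ProbabilityMeasure.continuous_map (sh_continuous a b)).tendsto μ).comp hμ
    have h2 : (fun J => (pm J).map (sh_continuous a b).measurable.aemeasurable) = pm := by
      funext J
      apply Subtype.ext
      show ((pm J : Measure XX)).map (sh a b) = (pm J : Measure XX)
      rw [hpm, mS_map]
    rw [h2] at h1
    have h3 := tendsto_nhds_unique h1 hμ
    have h4 := congrArg (fun ν : ProbabilityMeasure XX => (ν : Measure XX)) h3
    exact h4
  have hmp : ∀ a b : ℤ, MeasurePreserving (shE a b) (μ : Measure XX) (μ : Measure XX) :=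
    fun a b => ⟨(sh_continuous a b).measurable, hinv a b⟩
  have hc : ∀ p : ℤ × ℤ, Continuous fun ω : XX => ((ω p : Circle) : ℂ) := fun p =>
    continuous_subtype_val.comp (continuous_apply p)
  refine ⟨XX, inferInstance, μ, inferInstance, ![shE 1 0, shE 0 1, shE 1 1],
    ![fun ω => (ω (0, 0) : ℂ), fun ω => (starRingEnd ℂ) (ω (0, 0) : ℂ),
      fun ω => (starRingEnd ℂ) (ω (0, 0) : ℂ), fun ω => (ω (0, 0) : ℂ)], ?_, ?_⟩
  · refine ⟨?_, ?_, ?_, ?_, ?_⟩
    · intro i
      fin_cases i
      · exact hmp 1 0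
      · exact hmp 0 1
      · exact hmp 1 1
    · intro i
      fin_cases i
      · show MeasurePreserving (shE 1 0).symm _ _
        rw [shE_symm]; exact hmp _ _
      · show MeasurePreserving (shE 0 1).symm _ _
        rw [shE_symm]; exact hmp _ _
      · show MeasurePreserving (shE 1 1).symm _ _
        rw [shE_symm]; exact hmp _ _
    · have key : ∀ a b c d : ℤ, Commute (shE a b) (shE c d) := by
        intro a b c d
        show shE a b * shE c d = shE c d * shE a b
        rw [shE_mul, shE_mul, add_comm a c, add_comm b d]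
      intro i j
      fin_cases i <;> fin_cases j <;> exact key _ _ _ _
    · intro i
      fin_cases i
      · exact (hc _).measurable
      · exact (Complex.continuous_conj.comp (hc _)).measurable
      · exact (Complex.continuous_conj.comp (hc _)).measurable
      · exact (hc _).measurable
    · intro i x
      fin_cases i
      · show ‖((x (0, 0) : Circle) : ℂ)‖ ≤ 1
        rw [Circle.norm_coe]
      · show ‖(starRingEnd ℂ) ((x (0, 0) : Circle) : ℂ)‖ ≤ 1
        rw [Complex.norm_conj, Circle.norm_coe]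
      · show ‖(starRingEnd ℂ) ((x (0, 0) : Circle) : ℂ)‖ ≤ 1
        rw [Complex.norm_conj, Circle.norm_coe]
      · show ‖((x (0, 0) : Circle) : ℂ)‖ ≤ 1
        rw [Circle.norm_coe]
  · intro n K hK hev
    have hCor : Cor (μ : Measure XX) ![shE 1 0, shE 0 1, shE 1 1]
        ![fun ω => (ω (0, 0) : ℂ), fun ω => (starRingEnd ℂ) (ω (0, 0) : ℂ),
          fun ω => (starRingEnd ℂ) (ω (0, 0) : ℂ), fun ω => (ω (0, 0) : ℂ)] n =
        ∫ ω, Phi n ω ∂(μ : Measure XX) := by
      unfold Cor
      refine integral_congr_ae (Eventually.of_forall fun ω => ?_)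
      simp only [Fin.prod_univ_three]
      rw [Phi_apply]
      simp [shE_zpow, shE_apply, sh]
    rw [hCor]
    have h1 := (ProbabilityMeasure.tendsto_iff_forall_integral_rclike_tendsto ℂ).1 hμ (Phi n)
    refine hK.mem_of_tendsto h1 ?_
    have h2 : ∀ᶠ J in (hyperfilter ℕ : Filter ℕ), (S J).cor n ∈ K :=
      Nat.hyperfilter_le_atTop hev
    filter_upwards [h2] with J hJ
    rw [hpm, ← cor_eq]
    exact hJ

end Lim

theorem t_LIM : S_LIM := Lim.main

end Pool.Agent.K6.H25.MC
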