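import Pool.Agent.K6.H25.MC.Stm

set_option autoImplicit false

/-! # Piece MV (helper42) -/

namespace Pool.Agent.K6.H25.MC

/-- `(n - |E|) ^ t` is a polynomial of degree `t` in the indicator functions -/
theorem mv_aux (p n t : ℕ) : ∃ lam : Finset (Fin n) → ZMod p, (∀ S, t < S.card → lam S = 0) ∧
    ∀ E : Finset (Fin n), ∑ S ∈ E.powerset, lam S = ((n : ZMod p) - (E.card : ZMod p)) ^ t := by
  classical
  induction t with
  | zero =>
    refine ⟨fun S => if S = ∅ then 1 else 0, fun S hS => ?_, fun E => ?_⟩
    · have : S ≠ ∅ := by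
        rintro rfl
        simp at hS
      simp [this]
    · rw [Finset.sum_ite_eq' E.powerset ∅ (fun _ => (1 : ZMod p)),
        if_pos (Finset.empty_mem_powerset E), pow_zero]
  | succ t ih =>
    obtain ⟨lam, h1, h2⟩ := ih
    refine ⟨fun S => (n : ZMod p) * lam S - ∑ i ∈ S, (lam S + lam (S.erase i)), fun S hS => ?_,
      fun E => ?_⟩
    · beta_reduce
      rw [h1 S (by omega), mul_zero, zero_sub, neg_eq_zero]
      refine Finset.sum_eq_zero fun i hi => ?_
      rw [h1 (S.erase i) (by rw [Finset.card_erase_of_mem hi]; omega), add_zero]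
    · rw [Finset.sum_sub_distrib, ← Finset.mul_sum, h2 E, pow_succ]
      have key : ∑ S ∈ E.powerset, ∑ i ∈ S, (lam S + lam (S.erase i)) =
          (E.card : ZMod p) * ((n : ZMod p) - (E.card : ZMod p)) ^ t := by
        rw [← h2 E]
        have e1 : ∑ S ∈ E.powerset, ∑ i ∈ S, (lam S + lam (S.erase i)) =
            ∑ i ∈ E, ∑ S ∈ E.powerset with i ∈ S, (lam S + lam (S.erase i)) := by
          refine Finset.sum_comm' fun S i => ?_
          rw [Finset.mem_filter, Finset.mem_powerset]
          constructor
          · rintro ⟨a, b⟩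
            exact ⟨⟨a, b⟩, a b⟩
          · rintro ⟨⟨a, b⟩, -⟩
            exact ⟨a, b⟩
        rw [e1, ← nsmul_eq_mul, ← Finset.sum_const]
        refine Finset.sum_congr rfl fun i hi => ?_
        rw [Finset.sum_add_distrib, ← Finset.sum_filter_add_sum_filter_not E.powerset
          (fun S => i ∈ S) lam]
        congr 1
        refine Finset.sum_nbij' (fun S => S.erase i) (fun S => insert i S) ?_ ?_ ?_ ?_ ?_
        · intro S hS
          rw [Finset.mem_filter, Finset.mem_powerset] at hS ⊢
          exact ⟨(Finset.erase_subset _ _).trans hS.1, Finset.notMem_erase i S⟩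
        · intro S hS
          rw [Finset.mem_filter, Finset.mem_powerset] at hS ⊢
          exact ⟨Finset.insert_subset hi hS.1, Finset.mem_insert_self i S⟩
        · intro S hS
          rw [Finset.mem_filter] at hS
          exact Finset.insert_erase hS.2
        · intro S hS
          rw [Finset.mem_filter] at hS
          exact Finset.erase_insert hS.2
        · intro S _
          rfl
      rw [key]
      ring

theorem t_MV : S_MV := by
  classical
  intro p n hp
  have : Fact p.Prime := ⟨hp⟩
  have hp2 := hp.two_le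
  obtain ⟨lam, h1, h2⟩ := mv_aux p n (p - 1)
  refine ⟨fun S => (if S = ∅ then 1 else 0) - lam S, fun S hS => ?_, fun E => ?_⟩
  · have h3 : S ≠ ∅ := by
      rintro rfl
      rw [Finset.card_empty] at hS
      omega
    beta_reduce
    rw [if_neg h3, h1 S (by omega), sub_zero]
  · rw [Finset.sum_sub_distrib, Finset.sum_ite_eq' E.powerset ∅ (fun _ => (1 : ZMod p)),
      if_pos (Finset.empty_mem_powerset E), h2 E]
    have hE : E.card ≤ n := by
      have := Finset.card_le_univ E
      rwa [Fintype.card_fin] at this
    rw [← Nat.cast_sub hE]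
    split_ifs with hd
    · rw [(ZMod.natCast_eq_zero_iff _ _).2 hd, zero_pow (by omega), sub_zero]
    · have h4 : ((n - E.card : ℕ) : ZMod p) ≠ 0 := fun h => hd ((ZMod.natCast_eq_zero_iff _ _).1 h)
      rw [ZMod.pow_card_sub_one_eq_one h4, sub_self]

end Pool.Agent.K6.H25.MC
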