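import Pool.Agent.K6.H25.MC.Stm

/-!
# Strong form of the piece MAIN of MP_b4ed41_an (helper25)

Only the diagonal times `(k, k, k)` are used, the steps of the nilsequences are unbounded also in the
uniform limits, the measure is arbitrary and the measurability is only almost everywhere.
-/

set_option autoImplicit false
set_option linter.unusedVariables false

open MeasureTheory Filter Topology
open scoped ENNReal

namespace Pool.Agent.K6.H25.MC

/-- the sign -/
noncomputable def sg (b : Bool) : ℂ := if b then -1 else 1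

lemma norm_sg (b : Bool) : ‖sg b‖ = 1 := by
  unfold sg; split_ifs <;> simp

/-- signs which are uncorrelated with functions of `m` colours -/
def Unc (n m q : ℕ) (ε : ℝ) (s : (Fin n → Fin q) → Bool) : Prop :=
  ∀ (V : Fin n → (Fin n → Fin q) → Fin m) (h : (Fin n → Fin m) → ℂ),
    (∀ i b b', (∀ j, j ≠ i → b j = b' j) → V i b = V i b') → (∀ c, ‖h c‖ ≤ 1) →
    ‖∑ b, sg (s b) * h (fun i => V i b)‖ ≤ ε * (q : ℝ) ^ n

lemma card_B (n q : ℕ) : (Fintype.card (Fin n → Fin q) : ℝ) = (q : ℝ) ^ n := by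
  simp

/-- Uniform limits of basic nilsequences, the steps of the approximations being arbitrary. This
contains all nilsequences of all steps. -/
def NilAll (ℓ : ℕ) (ψ : (Fin ℓ → ℤ) → ℂ) : Prop :=
  ∀ ε : ℝ, 0 < ε → ∃ (k : ℕ) (ψ' : (Fin ℓ → ℤ) → ℂ), Basic ℓ k ψ' ∧ ∀ n, ‖ψ n - ψ' n‖ ≤ ε

lemma Basic.bdd {ℓ k : ℕ} {ψ : (Fin ℓ → ℤ) → ℂ} (h : Basic ℓ k ψ) :
    ∃ M : ℝ, 0 ≤ M ∧ ∀ v, ‖ψ v‖ ≤ M := by
  obtain ⟨V, i1, i2, i3, G, i4, i5, i6, i7, i8, Γ, -, -, hc, F, b, z, hF, hψ⟩ := h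
  obtain ⟨M, hM⟩ := (isCompact_range hF).isBounded.exists_norm_le
  refine ⟨M, (norm_nonneg _).trans (hM _ ⟨z, rfl⟩), fun v => ?_⟩
  rw [hψ]
  exact hM _ ⟨_, rfl⟩

/-- correlations with a given nilsequence are small -/
lemma pw2 (h2 : S_NIL) (k n d : ℕ) (hk : k * d < n) (ψ ψ' : (Fin 3 → ℤ) → ℂ)
    (hb : Basic 3 k ψ') (δ : ℝ) (hδ : 0 < δ) (hψ' : ∀ n, ‖ψ n - ψ' n‖ ≤ δ / 4) :
    ∃ m1 : ℕ, ∀ (m q : ℕ) (N : Finset (Fin n) → (Fin n → Fin q) → ℕ)
      (s : (Fin n → Fin q) → Bool), Loc d N → m1 ≤ m → Unc n (m + 1) q (1 / ((m : ℝ) + 10)) s →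
      ‖∑ b, sg (s b) * ψ (dg (tot N b))‖ ≤ δ * (q : ℝ) ^ n := by
  classical
  obtain ⟨m0, hm0⟩ := h2 k n d ψ' hk hb (δ / 4) (by positivity)
  obtain ⟨M, hM0, hM⟩ := hb.bdd
  obtain ⟨m2, hm2⟩ := exists_nat_gt ((M + 1) / (δ / 4))
  refine ⟨max m0 m2, ?_⟩
  intro m q N s hN hm hs
  have hm0' : m0 ≤ m + 1 := (le_max_left _ _).trans (hm.trans (Nat.le_succ m))
  have hm2' : m2 ≤ m := (le_max_right _ _).trans hm
  obtain ⟨V, hV1, hV2⟩ := hm0 q N hN
  set B := M + 1 with hB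
  have hBpos : 0 < B := by positivity
  have hψ'b : ∀ v, ‖ψ' v‖ ≤ B := by
    intro v
    have := hM v
    linarith
  -- the function of the colours
  let V' : Fin n → (Fin n → Fin q) → Fin (m + 1) := fun i b => Fin.castLE hm0' (V i b)
  let h : (Fin n → Fin (m + 1)) → ℂ := fun c =>
    if hc : ∃ b, (fun i => V' i b) = c then ψ' (dg (tot N hc.choose)) / B else 0
  have hh1 : ∀ c, ‖h c‖ ≤ 1 := by
    intro c
    simp only [h]
    split_ifs with hc
    · rw [norm_div, Complex.norm_real, Real.norm_of_nonneg hBpos.le]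
      exact div_le_one_of_le₀ (hψ'b _) hBpos.le
    · simp
  have hh2 : ∀ b, ‖ψ' (dg (tot N b)) - B * h (fun i => V' i b)‖ ≤ δ / 4 := by
    intro b
    have hc : ∃ b', (fun i => V' i b') = fun i => V' i b := ⟨b, rfl⟩
    have e : h (fun i => V' i b) = ψ' (dg (tot N hc.choose)) / B := by
      simp only [h]
      rw [dif_pos hc]
    rw [e, mul_div_cancel₀ _ (by exact_mod_cast hBpos.ne')]
    apply hV2
    intro i
    have := congrFun hc.choose_spec i
    exact (Fin.castLE_injective hm0' this).symm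
  have h3 := hs V' h (fun i b b' hbb => by simp only [V']; rw [hV1 i b b' hbb]) hh1
  have e : ∑ b, sg (s b) * ψ (dg (tot N b)) =
      ∑ b, sg (s b) * (ψ (dg (tot N b)) - ψ' (dg (tot N b))) +
      ∑ b, sg (s b) * (ψ' (dg (tot N b)) - B * h (fun i => V' i b)) +
      B * ∑ b, sg (s b) * h (fun i => V' i b) := by
    rw [Finset.mul_sum, ← Finset.sum_add_distrib, ← Finset.sum_add_distrib]
    refine Finset.sum_congr rfl fun b _ => ?_
    ring
  have b1 : ‖∑ b, sg (s b) * (ψ (dg (tot N b)) - ψ' (dg (tot N b)))‖ ≤ δ / 4 * (q : ℝ) ^ n := by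
    refine (norm_sum_le _ _).trans ?_
    calc ∑ b, ‖sg (s b) * (ψ (dg (tot N b)) - ψ' (dg (tot N b)))‖
        ≤ ∑ b : Fin n → Fin q, δ / 4 := Finset.sum_le_sum fun b _ => by
          rw [norm_mul, norm_sg, one_mul]; exact hψ' _
      _ = δ / 4 * (q : ℝ) ^ n := by
          rw [Finset.sum_const, Finset.card_univ, nsmul_eq_mul, card_B, mul_comm]
  have b2 : ‖∑ b, sg (s b) * (ψ' (dg (tot N b)) - B * h (fun i => V' i b))‖ ≤
      δ / 4 * (q : ℝ) ^ n := by
    refine (norm_sum_le _ _).trans ?_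
    calc ∑ b, ‖sg (s b) * (ψ' (dg (tot N b)) - B * h (fun i => V' i b))‖
        ≤ ∑ b : Fin n → Fin q, δ / 4 := Finset.sum_le_sum fun b _ => by
          rw [norm_mul, norm_sg, one_mul]; exact hh2 b
      _ = δ / 4 * (q : ℝ) ^ n := by
          rw [Finset.sum_const, Finset.card_univ, nsmul_eq_mul, card_B, mul_comm]
  have b3 : ‖(B : ℂ) * ∑ b, sg (s b) * h (fun i => V' i b)‖ ≤ δ / 4 * (q : ℝ) ^ n := by
    rw [norm_mul, Complex.norm_real, Real.norm_of_nonneg hBpos.le]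
    calc B * ‖∑ b, sg (s b) * h (fun i => V' i b)‖ ≤ B * (1 / ((m : ℝ) + 10) * (q : ℝ) ^ n) :=
          mul_le_mul_of_nonneg_left h3 hBpos.le
      _ = (B * (1 / ((m : ℝ) + 10))) * (q : ℝ) ^ n := by ring
      _ ≤ δ / 4 * (q : ℝ) ^ n := by
          apply mul_le_mul_of_nonneg_right _ (by positivity)
          have h4 : B / (δ / 4) < m2 := hm2
          have h5 : (m2 : ℝ) ≤ m := by exact_mod_cast hm2'
          rw [mul_one_div, div_le_iff₀ (by positivity)]
          rw [div_lt_iff₀ (by positivity)] at h4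
          nlinarith
  rw [e]
  refine (norm_add₃_le).trans ?_
  nlinarith [pow_nonneg (Nat.cast_nonneg (α := ℝ) q) n]

/-- The values `c k` are within `1 / 10` of an integral of nilsequences (of arbitrary, also
unbounded, steps) with integrable sup norm, at the diagonal times `(k, k, k)`, `k ≥ 0`. -/
def ApproxRep (c : ℕ → ℂ) : Prop :=
  ∃ (Y : Type) (_ : MeasurableSpace Y) (ν : Measure Y) (h : Y → ℂ) (N : Y → (Fin 3 → ℤ) → ℂ),
    AEMeasurable h ν ∧ (∀ n, AEMeasurable (fun y => N y n) ν) ∧ (∀ᵐ y ∂ν, NilAll 3 (N y)) ∧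
    ∫⁻ y, (⨆ n, ‖N y n‖ₑ) * ‖h y‖ₑ ∂ν ≠ ∞ ∧
    ∀ k : ℕ, ‖c k - ∫ y, N y (dg k) * h y ∂ν‖ ≤ 1 / 10

/-- a correlation sequence of three commuting transformations which is not near to an integral of
nilsequences -/
def S_MAIN2 : Prop := ∃ (X : Type) (_ : MeasurableSpace X) (μ : Measure X)
  (_ : IsProbabilityMeasure μ) (T : Fin 3 → Equiv.Perm X) (f : Fin 4 → X → ℂ), IsSys μ T f ∧
  ¬ ApproxRep fun k => Cor μ T f (dg k)

/-- the measurable version -/
def ApproxRepM (c : ℕ → ℂ) : Prop :=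
  ∃ (Y : Type) (_ : MeasurableSpace Y) (ν : Measure Y) (h : Y → ℂ) (N : Y → (Fin 3 → ℤ) → ℂ),
    Measurable h ∧ (∀ n, Measurable (fun y => N y n)) ∧ (∀ᵐ y ∂ν, NilAll 3 (N y)) ∧
    ∫⁻ y, (⨆ n, ‖N y n‖ₑ) * ‖h y‖ₑ ∂ν ≠ ∞ ∧
    ∀ k : ℕ, ‖c k - ∫ y, N y (dg k) * h y ∂ν‖ ≤ 1 / 10

lemma ApproxRep.toM {c : ℕ → ℂ} (H : ApproxRep c) : ApproxRepM c := by
  obtain ⟨Y, iY, ν, h, N, mh, mN, hN, hfin, happ⟩ := H
  have e1 : h =ᵐ[ν] mh.mk h := mh.ae_eq_mk
  have e2 : ∀ᵐ y ∂ν, ∀ n, N y n = (mN n).mk (fun y => N y n) y :=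
    ae_all_iff.2 fun n => (mN n).ae_eq_mk
  refine ⟨Y, iY, ν, mh.mk h, fun y n => (mN n).mk (fun y => N y n) y, mh.measurable_mk,
    fun n => (mN n).measurable_mk, ?_, ?_, ?_⟩
  · filter_upwards [hN, e2] with y h1 h2
    have : (fun n => (mN n).mk (fun y => N y n) y) = N y := funext fun n => (h2 n).symm
    rw [this]
    exact h1
  · refine ne_of_eq_of_ne (lintegral_congr_ae ?_) hfin
    filter_upwards [e1, e2] with y h1 h2
    rw [← h1]
    congr 1
    exact iSup_congr fun n => by rw [← h2 n]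
  · intro k
    have : ∫ y, (mN (dg k)).mk (fun y => N y (dg k)) y * mh.mk h y ∂ν =
        ∫ y, N y (dg k) * h y ∂ν := by
      refine integral_congr_ae ?_
      filter_upwards [e1, e2] with y h1 h2
      rw [← h1, ← h2 (dg k)]
    rw [this]
    exact happ k

/-- **Strong form of MAIN.** -/
theorem t_MAIN2 (h1 : S_SYS) (h2 : S_NIL) (h3 : S_CNT) : S_MAIN2 := by
  classical
  -- the parameters
  have hpr : ∀ i : ℕ, ∃ p p' : ℕ, p.Prime ∧ p'.Prime ∧ i < p ∧ p < p' := by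
    intro i
    obtain ⟨p, hp, hp'⟩ := Nat.exists_infinite_primes (i + 1)
    obtain ⟨p', hq, hq'⟩ := Nat.exists_infinite_primes (p + 1)
    exact ⟨p, p', hp', hq', hp, hq⟩
  choose p p' hp hp' hip hpp using hpr
  let n : ℕ → ℕ := fun i => p i * p' i - 1
  let d : ℕ → ℕ := fun i => p' i - 1
  have hkd : ∀ k i : ℕ, k ≤ i → k * d i < n i := by
    intro k i hki
    have a1 := hip i
    have a2 := hpp i
    show k * (p' i - 1) < p i * p' i - 1
    have a3 : k + 1 ≤ p i := by omega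
    obtain ⟨u, hu⟩ : ∃ u, p' i = u + 1 := ⟨p' i - 1, by omega⟩
    rw [hu]
    have a4 : (k + 1) * (u + 1) ≤ p i * (u + 1) := Nat.mul_le_mul_right _ a3
    have a5 : (k + 1) * (u + 1) = k * u + k + u + 1 := by ring
    have a6 : 2 ≤ u := by
      have := (hp i).two_le
      omega
    simp only [Nat.add_sub_cancel]
    omega
  have hn1 : ∀ i, 1 ≤ n i := by
    intro i
    have := hkd 0 i (Nat.zero_le i)
    omega
  choose q s hq hs using fun j : ℕ => h3 (n (Nat.unpair j).1) ((Nat.unpair j).2 + 1)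
    (hn1 _) (1 / (((Nat.unpair j).2 : ℝ) + 10)) (by positivity)
  have hs' : ∀ j, Unc (n (Nat.unpair j).1) ((Nat.unpair j).2 + 1) (q j)
      (1 / (((Nat.unpair j).2 : ℝ) + 10)) (s j) := by
    intro j V h hV hh
    exact hs j V h hV hh
  obtain ⟨X, iX, μ, iμ, T, f, N, hsys, hloc, hval⟩ := h1 (fun j => n (Nat.unpair j).1)
    (fun j => d (Nat.unpair j).1) (fun j => p (Nat.unpair j).1) (fun j => p' (Nat.unpair j).1) q s
    (by
      intro j
      have a1 := hip (Nat.unpair j).1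
      have a2 := hpp (Nat.unpair j).1
      refine ⟨hp _, hp' _, by omega, ?_, ?_, ?_, hq j⟩
      · show _ ≤ p' _ - 1 + 1
        omega
      · show _ ≤ p' _ - 1 + 1
        omega
      · show p _ * p' _ - 1 < p _ * p' _
        have := (hp (Nat.unpair j).1).pos
        have := (hp' (Nat.unpair j).1).pos
        have := Nat.mul_pos (hp (Nat.unpair j).1).pos (hp' (Nat.unpair j).1).pos
        omega)
  refine ⟨X, iX, μ, iμ, T, f, hsys, ?_⟩
  intro hrep
  obtain ⟨Y, iY, ν, h, Nn, mh, mN, hN, hfin, happ⟩ := hrep.toM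
  let M : Y → ℝ≥0∞ := fun y => ⨆ n, ‖Nn y n‖ₑ
  -- lower bound for the correlation sequence
  have hlow : ∀ j, 7 / 20 * (q j : ℝ) ^ (n (Nat.unpair j).1) ≤
      (∑ b, sg (s j b) * Cor μ T f (dg (tot (N j) b))).re := by
    intro j
    have hbal := hs' j (fun _ _ => 0) (fun _ => 1) (fun _ _ _ _ => rfl) (fun _ => by simp)
    simp only [mul_one] at hbal
    have hε : 1 / (((Nat.unpair j).2 : ℝ) + 10) ≤ 1 / 10 := by
      apply one_div_le_one_div_of_le (by norm_num)
      have : (0 : ℝ) ≤ ((Nat.unpair j).2 : ℝ) := Nat.cast_nonneg _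
      linarith
    have hq0 : 0 ≤ (q j : ℝ) ^ (n (Nat.unpair j).1) := by positivity
    have hbal2 : -(1 / 10 * (q j : ℝ) ^ (n (Nat.unpair j).1)) ≤ (∑ b, sg (s j b)).re := by
      have a1 := Complex.abs_re_le_norm (∑ b, sg (s j b))
      have a2 := neg_abs_le (∑ b, sg (s j b)).re
      have a3 : 1 / (((Nat.unpair j).2 : ℝ) + 10) * (q j : ℝ) ^ (n (Nat.unpair j).1) ≤
          1 / 10 * (q j : ℝ) ^ (n (Nat.unpair j).1) := mul_le_mul_of_nonneg_right hε hq0
      linarith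
    have hterm : ∀ b, (2 / 5 : ℝ) + 1 / 2 * (sg (s j b)).re ≤
        (sg (s j b) * Cor μ T f (dg (tot (N j) b))).re := by
      intro b
      obtain ⟨c1, c2⟩ := hval j b
      cases hb : s j b with
      | false =>
        have := c1 hb
        simp only [sg, Bool.false_eq_true, if_false, one_mul, Complex.one_re]
        linarith
      | true =>
        have := c2 hb
        simp only [sg, if_true, Complex.neg_re, Complex.one_re, neg_mul, one_mul]
        linarith
    have hsum := Finset.sum_le_sum fun b (_ : b ∈ Finset.univ) => hterm b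
    rw [Finset.sum_add_distrib, ← Finset.mul_sum, Finset.sum_const, Finset.card_univ,
      nsmul_eq_mul, card_B, ← Complex.re_sum, ← Complex.re_sum] at hsum
    linarith
  -- the integrands
  let Φ : ℕ → Y → ℂ := fun j y =>
    (∑ b, sg (s j b) * Nn y (dg (tot (N j) b))) / ((q j : ℂ) ^ (n (Nat.unpair j).1))
  have hqpos : ∀ j, 0 < (q j : ℝ) ^ (n (Nat.unpair j).1) := by
    intro j
    have : 0 < (q j : ℝ) := by exact_mod_cast hq j
    positivity
  have hΦM : ∀ j y, ‖Φ j y‖ₑ ≤ M y := by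
    intro j y
    by_cases hMy : M y = ∞
    · rw [hMy]; exact le_top
    have hb : ∀ v, ‖Nn y v‖ ≤ (M y).toReal := by
      intro v
      have a1 : ‖Nn y v‖ₑ ≤ M y := le_iSup (fun n => ‖Nn y n‖ₑ) v
      have a2 := ENNReal.toReal_mono hMy a1
      rwa [toReal_enorm] at a2
    have : ‖Φ j y‖ ≤ (M y).toReal := by
      simp only [Φ]
      rw [norm_div, norm_pow, Complex.norm_natCast, div_le_iff₀ (hqpos j)]
      refine (norm_sum_le _ _).trans ?_
      calc ∑ b, ‖sg (s j b) * Nn y (dg (tot (N j) b))‖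
          ≤ ∑ b : Fin (n (Nat.unpair j).1) → Fin (q j), (M y).toReal :=
            Finset.sum_le_sum fun b _ => by
              rw [norm_mul, norm_sg, one_mul]; exact hb _
        _ = (M y).toReal * (q j : ℝ) ^ (n (Nat.unpair j).1) := by
            rw [Finset.sum_const, Finset.card_univ, nsmul_eq_mul, card_B, mul_comm]
    rw [← ofReal_norm, ← ENNReal.ofReal_toReal hMy]
    exact ENNReal.ofReal_le_ofReal this
  have mΦ : ∀ j, Measurable (Φ j) := by
    intro j
    apply Measurable.div_const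
    apply Finset.measurable_sum
    intro b _
    exact (mN _).const_mul _
  have hint2 : ∀ v, Integrable (fun y => Nn y v * h y) ν := by
    intro v
    refine ⟨((mN v).mul mh).aestronglyMeasurable, ?_⟩
    refine lt_of_le_of_lt ?_ (lt_top_iff_ne_top.2 hfin)
    refine lintegral_mono fun y => ?_
    rw [enorm_mul]
    gcongr
    exact le_iSup (fun n => ‖Nn y n‖ₑ) v
  have hΦint : ∀ j, ∫ y, Φ j y * h y ∂ν =
      (∑ b, sg (s j b) * ∫ y, Nn y (dg (tot (N j) b)) * h y ∂ν) /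
        ((q j : ℂ) ^ (n (Nat.unpair j).1)) := by
    intro j
    have e : ∀ y, Φ j y * h y = (∑ b, sg (s j b) * (Nn y (dg (tot (N j) b)) * h y)) /
        ((q j : ℂ) ^ (n (Nat.unpair j).1)) := by
      intro y
      simp only [Φ]
      rw [div_mul_eq_mul_div, Finset.sum_mul]
      congr 1
      refine Finset.sum_congr rfl fun b _ => ?_
      ring
    simp_rw [e]
    rw [integral_div, integral_finsetSum _ fun b _ => (hint2 _).const_mul _]
    congr 1
    refine Finset.sum_congr rfl fun b _ => ?_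
    rw [integral_const_mul]
  have hlow2 : ∀ j, 1 / 4 ≤ ‖∫ y, Φ j y * h y ∂ν‖ := by
    intro j
    rw [hΦint j, norm_div, norm_pow, Complex.norm_natCast, le_div_iff₀ (hqpos j)]
    have a1 := hlow j
    have a2 : ‖∑ b, sg (s j b) * Cor μ T f (dg (tot (N j) b)) -
        ∑ b, sg (s j b) * ∫ y, Nn y (dg (tot (N j) b)) * h y ∂ν‖ ≤
        1 / 10 * (q j : ℝ) ^ (n (Nat.unpair j).1) := by
      rw [← Finset.sum_sub_distrib]
      refine (norm_sum_le _ _).trans ?_
      calc ∑ b, ‖sg (s j b) * Cor μ T f (dg (tot (N j) b)) -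
            sg (s j b) * ∫ y, Nn y (dg (tot (N j) b)) * h y ∂ν‖
          ≤ ∑ b : Fin (n (Nat.unpair j).1) → Fin (q j), (1 / 10 : ℝ) :=
            Finset.sum_le_sum fun b _ => by
              rw [← mul_sub, norm_mul, norm_sg, one_mul]; exact happ _
        _ = 1 / 10 * (q j : ℝ) ^ (n (Nat.unpair j).1) := by
            rw [Finset.sum_const, Finset.card_univ, nsmul_eq_mul, card_B, mul_comm]
    have a3 := Complex.re_le_norm (∑ b, sg (s j b) * Cor μ T f (dg (tot (N j) b)))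
    have a4 := norm_sub_norm_le (∑ b, sg (s j b) * Cor μ T f (dg (tot (N j) b)))
      (∑ b, sg (s j b) * ∫ y, Nn y (dg (tot (N j) b)) * h y ∂ν)
    linarith
  -- pointwise convergence
  have hpt : ∀ᵐ y ∂ν, ∀ δ : ℝ, 0 < δ → ∃ k, ∀ i, k ≤ i →
      ∀ᶠ m in atTop, ‖Φ (Nat.pair i m) y‖ ≤ δ := by
    filter_upwards [hN] with y hy
    intro δ hδ
    obtain ⟨k, ψ', hb, hψ'⟩ := hy (δ / 4) (by positivity)
    refine ⟨k, fun i hki => ?_⟩
    obtain ⟨m1, hm1⟩ := pw2 h2 k (n i) (d i) (hkd _ _ hki) (Nn y) ψ' hb δ hδ hψ'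
    filter_upwards [eventually_ge_atTop m1] with m hm
    have key : ∀ j, (Nat.unpair j).1 = i → m1 ≤ (Nat.unpair j).2 → ‖Φ j y‖ ≤ δ := by
      intro j hj hmj
      subst hj
      simp only [Φ]
      rw [norm_div, norm_pow, Complex.norm_natCast, div_le_iff₀ (hqpos j)]
      exact hm1 _ _ (N j) (s j) (hloc j) hmj (hs' j)
    exact key (Nat.pair i m) (by rw [Nat.unpair_pair]) (by rw [Nat.unpair_pair]; exact hm)
  -- reverse Fatou
  let g : ℕ → ℕ → Y → ℝ≥0∞ := fun i m y => ‖Φ (Nat.pair i m) y * h y‖ₑ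
  let L : ℕ → Y → ℝ≥0∞ := fun i y => limsup (fun m => g i m y) atTop
  have mg : ∀ i m, Measurable (g i m) := fun i m => ((mΦ _).mul mh).enorm
  have mL : ∀ i, Measurable (L i) := fun i => Measurable.limsup (mg i)
  have hgb : ∀ i m y, g i m y ≤ M y * ‖h y‖ₑ := by
    intro i m y
    simp only [g]
    rw [enorm_mul]
    gcongr
    exact hΦM _ y
  have hLow : ∀ i, ENNReal.ofReal (1 / 4) ≤ ∫⁻ y, L i y ∂ν := by
    intro i
    have a1 : limsup (fun m => ∫⁻ y, g i m y ∂ν) atTop ≤ ∫⁻ y, L i y ∂ν :=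
      limsup_lintegral_le (fun y => M y * ‖h y‖ₑ) (mg i)
        (fun m => Eventually.of_forall (hgb i m)) hfin
    refine le_trans ?_ a1
    refine le_limsup_of_frequently_le (Frequently.of_forall fun m => ?_) (by isBoundedDefault)
    have a2 := enorm_integral_le_lintegral_enorm (μ := ν) (fun y => Φ (Nat.pair i m) y * h y)
    refine le_trans ?_ a2
    rw [← ofReal_norm]
    exact ENNReal.ofReal_le_ofReal (hlow2 _)
  have hL0 : ∀ᵐ y ∂ν, Tendsto (fun i => L i y) atTop (𝓝 0) := by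
    filter_upwards [hpt] with y hy
    rw [ENNReal.tendsto_nhds_zero]
    intro ε hε
    obtain ⟨δ, hδ, hδ'⟩ : ∃ δ : ℝ, 0 < δ ∧ ENNReal.ofReal (δ * ‖h y‖) ≤ ε := by
      by_cases hε' : ε = ∞
      · exact ⟨1, one_pos, by rw [hε']; exact le_top⟩
      have hε'' : 0 < ε.toReal := ENNReal.toReal_pos hε.ne' hε'
      refine ⟨ε.toReal / (‖h y‖ + 1), by positivity, ?_⟩
      rw [ENNReal.ofReal_le_iff_le_toReal hε', div_mul_eq_mul_div,
        div_le_iff₀ (by positivity : (0 : ℝ) < ‖h y‖ + 1)]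
      nlinarith [norm_nonneg (h y)]
    obtain ⟨k, hk⟩ := hy δ hδ
    filter_upwards [eventually_ge_atTop k] with i hi
    refine le_trans ?_ hδ'
    refine limsup_le_of_le (by isBoundedDefault) ?_
    filter_upwards [hk i hi] with m hm
    simp only [g]
    rw [← ofReal_norm, norm_mul]
    exact ENNReal.ofReal_le_ofReal (mul_le_mul_of_nonneg_right hm (norm_nonneg _))
  have hlim : Tendsto (fun i => ∫⁻ y, L i y ∂ν) atTop (𝓝 (∫⁻ y, (fun _ => (0 : ℝ≥0∞)) y ∂ν)) := by
    refine tendsto_lintegral_of_dominated_convergence (fun y => M y * ‖h y‖ₑ) mL ?_ hfin hL0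
    intro i
    refine Eventually.of_forall fun y => ?_
    exact limsup_le_of_le (by isBoundedDefault) (Eventually.of_forall fun m => hgb i m y)
  simp only [lintegral_zero] at hlim
  have hle : ENNReal.ofReal (1 / 4) ≤ 0 := ge_of_tendsto' hlim hLow
  have : (0 : ℝ≥0∞) < ENNReal.ofReal (1 / 4) := ENNReal.ofReal_pos.2 (by norm_num)
  exact absurd hle (not_le.2 this)

end Pool.Agent.K6.H25.MC
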