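import Pool.Agent.K6.H25.MC.Stm
import Pool.Agent.H514R4.NegB
import Pool.Agent.H440N.TaskC
import Pool.Agent.H514R4.TaskU

/-!
# Piece NIL (helper84): colours of nilsequences
-/

set_option autoImplicit false

open MeasureTheory Filter Topology
open scoped Manifold ContDiff

namespace Pool.Agent.K6.H25.MC

namespace NIL

/-- positions -/
abbrev Pos (n : ℕ) : Type := Option (Fin 3 × Finset (Fin n))

/-- enumeration of the finite sets -/
noncomputable def en (n : ℕ) : List (Finset (Fin n)) := (Finset.univ : Finset (Finset (Fin n))).toList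

/-- the list of all positions -/
noncomputable def fwd (n : ℕ) : List (Pos n) :=
  ((en n).map fun S => some ((0 : Fin 3), S)) ++ ((en n).map fun S => some ((1 : Fin 3), S)) ++
    ((en n).map fun S => some ((2 : Fin 3), S)) ++ [none]

/-- the list of all positions, reversed -/
noncomputable def pos (n : ℕ) : List (Pos n) := (fwd n).reverse

/-- the group element at a position -/
def fe {n q : ℕ} {L : Type} [Group L] (β : Fin 3 → L) (g : L)
    (N : Finset (Fin n) → (Fin n → Fin q) → ℕ) (b : Fin n → Fin q) : Pos n → L
  | none => g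
  | some (i, S) => β i ^ N S b

theorem prod_fe {n q : ℕ} {L : Type} [Group L] (β : Fin 3 → L) (g : L)
    (N : Finset (Fin n) → (Fin n → Fin q) → ℕ) (b : Fin n → Fin q) :
    ((pos n).map (fe β g N b)).reverse.prod =
      β 0 ^ tot N b * β 1 ^ tot N b * β 2 ^ tot N b * g := by
  have key : ∀ i : Fin 3, (((en n).map fun S => some (i, S)).map (fe β g N b)).prod =
      β i ^ tot N b := by
    intro i
    have e1 : ((en n).map fun S => some (i, S)).map (fe β g N b) =
        ((en n).map fun S => N S b).map fun r => β i ^ r := by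
      rw [List.map_map, List.map_map]
      rfl
    rw [e1, H514N.list_pow]
    congr 1
    unfold en tot
    rw [Finset.sum_map_toList]
  unfold pos fwd
  rw [List.map_reverse, List.reverse_reverse, List.map_append, List.map_append, List.map_append,
    List.prod_append, List.prod_append, List.prod_append, key, key, key]
  simp [fe]

open Classical in
/-- the coordinates on which the elements at the positions `ps` depend -/
noncomputable def dep {n : ℕ} (d : ℕ) : List (Pos n) → Finset (Fin n)
  | [] => ∅
  | none :: ps => dep d ps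
  | some (_, S) :: ps => (if S.card ≤ d then S else ∅) ∪ dep d ps

theorem card_dep {n : ℕ} (d : ℕ) (ps : List (Pos n)) : (dep d ps).card ≤ ps.length * d := by
  induction ps with
  | nil => simp [dep]
  | cons p ps ih =>
    rw [List.length_cons, Nat.succ_mul]
    rcases p with _ | ⟨i, S⟩
    · show (dep d ps).card ≤ _
      omega
    · show ((if S.card ≤ d then S else ∅) ∪ dep d ps).card ≤ _
      refine (Finset.card_union_le _ _).trans ?_
      split_ifs with h
      · omega
      · simp only [Finset.card_empty]; omega

theorem mem_dep {n : ℕ} (d : ℕ) (ps : List (Pos n)) (i : Fin 3) (S : Finset (Fin n))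
    (h : some (i, S) ∈ ps) (hS : S.card ≤ d) (j : Fin n) (hj : j ∈ S) : j ∈ dep d ps := by
  induction ps with
  | nil => simp at h
  | cons p ps ih =>
    rw [List.mem_cons] at h
    rcases h with h | h
    · subst h
      show j ∈ (if S.card ≤ d then S else ∅) ∪ dep d ps
      rw [if_pos hS]
      exact Finset.mem_union_left _ hj
    · rcases p with _ | ⟨i', S'⟩
      · exact ih h
      · show j ∈ (if S'.card ≤ d then S' else ∅) ∪ dep d ps
        exact Finset.mem_union_right _ (ih h)

theorem map_fe_congr {n q d : ℕ} {L : Type} [Group L] (β : Fin 3 → L) (g : L)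
    (N : Finset (Fin n) → (Fin n → Fin q) → ℕ) (hN : Loc d N) (b b' : Fin n → Fin q)
    (ps : List (Pos n)) (i : Fin n) (hi : i ∉ dep d ps) (hb : ∀ j, j ≠ i → b j = b' j) :
    ps.map (fe β g N b) = ps.map (fe β g N b') := by
  apply List.map_congr_left
  intro p hp
  rcases p with _ | ⟨c, S⟩
  · rfl
  · show β c ^ N S b = β c ^ N S b'
    by_cases hS : S.card ≤ d
    · rw [hN.1 S b b']
      intro j hj
      refine hb j ?_
      rintro rfl
      exact hi (mem_dep d ps c S hp hS j hj)
    · rw [hN.2 S b (not_le.mp hS), hN.2 S b' (not_le.mp hS)]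

end NIL

open NIL in
theorem t_NIL (h1 : S_WFE) : S_NIL := by
  classical
  intro k n d ψ hkd hψ ε hε
  obtain ⟨V, _, _, _, G, _, _, _, _, _, Γ, hnil, hdisc, hcomp, F, β, z, hF, hψ⟩ := hψ
  have : IsTopologicalGroup G := topologicalGroup_of_lieGroup 𝓘(ℝ, V) ∞
  have : ProperSpace V := FiniteDimensional.proper ℝ V
  have : LocallyCompactSpace G := ChartedSpace.locallyCompactSpace V G
  obtain ⟨g, rfl⟩ := QuotientGroup.mk_surjective z
  let F' : G → ℂ := fun x => F (QuotientGroup.mk x)
  have hF' : Continuous F' := hF.comp QuotientGroup.continuous_mk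
  have hinv : ∀ y, ∀ γ ∈ Γ, F' (y * γ) = F' y := by
    intro y γ hγ
    show F _ = F _
    congr 1
    exact QuotientGroup.mk_mul_of_mem y hγ
  have hψ' : ∀ N : ℕ, ψ (dg N) = F' (β 0 ^ N * β 1 ^ N * β 2 ^ N * g) := by
    intro N
    rw [hψ]
    show F _ = F _
    congr 1
    have : (List.ofFn fun i => β i ^ dg N i).prod = β 0 ^ N * β 1 ^ N * β 2 ^ N := by
      simp [List.ofFn_succ, dg, mul_assoc]
    rw [this]
    rfl
  obtain ⟨L, H, K, C, hE, hKc, hH0, hH1, hHk, hA, hcomm, c2, cK, c3⟩ :=
    h1 G Γ k hnil hdisc hcomp ({β 0, β 1, β 2, g} : Finset G)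
  obtain ⟨κ, hκ, hP⟩ := H514N.taskC L H (Γ.comap L.subtype) C hH0 hH1 hA hcomm c2
    (fun i x hx => by obtain ⟨c, h, h'⟩ := c3 i x hx; exact ⟨c, h, h'⟩)
  have hκ1 : ∀ l : List L, k < l.length → κ l = 1 := by
    intro l hl
    have h2 := hA (Nat.succ_le_of_lt hl) (c2 _ (hκ l))
    rw [Nat.succ_eq_add_one, hHk] at h2
    simpa using h2
  have hβ : ∀ i : Fin 3, β i ∈ L := by
    intro i
    apply hE
    fin_cases i <;> simp
  have hg : g ∈ L := hE g (by simp)
  let βL : Fin 3 → L := fun i => ⟨β i, hβ i⟩
  let gL : L := ⟨g, hg⟩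
  let κ' : List L → G := fun l => (κ l : G)
  have hκK : ∀ l : List L, κ' l ∈ K := fun l => cK _ _ (hκ l)
  obtain ⟨m₀, χ, hχ⟩ := H514N.unif_list H514N.taskU G K F' (2 ^ (pos n).length) ε hKc hF' hε
  let A : Type := Fin (pos n).sublists'.length → Fin m₀
  refine ⟨Fintype.card A, fun q N hN => ?_⟩
  let e : A ≃ Fin (Fintype.card A) := Fintype.equivFin A
  let fb : (Fin n → Fin q) → Pos n → L := fun b => fe βL gL N b
  let W : Fin n → (Fin n → Fin q) → A := fun i b t =>
    if ((pos n).sublists'.get t).length ≤ k ∧ i ∉ dep d ((pos n).sublists'.get t) then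
      χ (κ' (((pos n).sublists'.get t).map (fb b))) else χ 1
  refine ⟨fun i b => e (W i b), ?_, ?_⟩
  · intro i b b' hb
    show e (W i b) = e (W i b')
    congr 1
    funext t
    show (if _ then _ else _) = (if _ then _ else _)
    split_ifs with h
    · have := map_fe_congr βL gL N hN b b' _ i h.2 hb
      show χ (κ' (((pos n).sublists'.get t).map (fe βL gL N b))) =
        χ (κ' (((pos n).sublists'.get t).map (fe βL gL N b')))
      rw [this]
    · rfl
  · intro b b' hVe
    have hW : ∀ i, W i b = W i b' := fun i => e.injective (hVe i)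
    have hval : ∀ b : Fin n → Fin q, ψ (dg (tot N b)) =
        F' ((((pos n).map (fb b)).sublists'.map κ').prod) := by
      intro b
      obtain ⟨γ, hγ, he⟩ := hP ((pos n).map (fb b))
      have e1 : (β 0 ^ tot N b * β 1 ^ tot N b * β 2 ^ tot N b * g : G) =
          ((((pos n).map (fb b)).reverse.prod : L) : G) := by
        show _ = ((((pos n).map (fe βL gL N b)).reverse.prod : L) : G)
        rw [prod_fe]
        simp [βL, gL]
      have e2 : ((((pos n).map (fb b)).sublists'.map κ).prod : L) =
          ((((pos n).map (fb b)).sublists'.map κ').prod : G) := by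
        have := map_list_prod L.subtype (((pos n).map (fb b)).sublists'.map κ)
        rw [List.map_map] at this
        exact this
      rw [hψ', e1, he, Subgroup.coe_mul, hinv _ (γ : G) hγ, e2]
    rw [hval, hval]
    refine le_of_lt (hχ _ _ ?_ ?_ ?_ ?_ ?_)
    · rw [List.length_map, List.length_sublists', List.length_map]
    · rw [List.length_map, List.length_sublists', List.length_map]
    · intro x hx
      rw [List.mem_map] at hx
      obtain ⟨l, hl, rfl⟩ := hx
      exact hκK l
    · intro x hx
      rw [List.mem_map] at hx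
      obtain ⟨l, hl, rfl⟩ := hx
      exact hκK l
    · rw [List.sublists'_map, List.sublists'_map, List.map_map, List.map_map, List.map_map,
        List.map_map]
      apply List.map_congr_left
      intro ps hps
      show χ (κ' (ps.map (fb b))) = χ (κ' (ps.map (fb b')))
      by_cases hlen : ps.length ≤ k
      · have hcard : (dep d ps).card < n :=
          lt_of_le_of_lt ((card_dep d ps).trans (Nat.mul_le_mul_right d hlen)) hkd
        have hex : ∃ i, i ∉ dep d ps := by
          by_contra hcon
          push Not at hcon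
          have : dep d ps = Finset.univ := Finset.eq_univ_iff_forall.mpr hcon
          rw [this, Finset.card_univ, Fintype.card_fin] at hcard
          exact lt_irrefl _ hcard
        obtain ⟨i, hi⟩ := hex
        obtain ⟨t, ht⟩ := List.mem_iff_get.mp hps
        have h5 := congrFun (hW i) t
        have h6 : ((pos n).sublists'.get t).length ≤ k ∧ i ∉ dep d ((pos n).sublists'.get t) := by
          rw [ht]; exact ⟨hlen, hi⟩
        simp only [W, if_pos h6] at h5
        rw [ht] at h5
        exact h5
      · have h7 : κ (ps.map (fb b)) = 1 := hκ1 _ (by rw [List.length_map]; omega)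
        have h8 : κ (ps.map (fb b')) = 1 := hκ1 _ (by rw [List.length_map]; omega)
        show χ ((κ _ : L) : G) = χ ((κ _ : L) : G)
        rw [h7, h8]

end Pool.Agent.K6.H25.MC
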