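import Pool.Agent.K6.H25.MC.Stm

set_option autoImplicit false

open Filter Topology

namespace Pool.Agent.K6.H25.MC

namespace REC

/-- pairs of permutations act on the product -/
def ph (α β : Type) : Equiv.Perm α × Equiv.Perm β →* Equiv.Perm (α × β) where
  toFun g := Equiv.prodCongr g.1 g.2
  map_one' := by ext x <;> rfl
  map_mul' g h := by ext x <;> rfl

/-- the product of two finite systems -/
def pr (S S' : FS) : FS where
  Ω := S.Ω × S'.Ω
  A := ph _ _ (S.A, S'.A)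
  B := ph _ _ (S.B, S'.B)
  comm := by
    have h : Commute ((S.A, S'.A) : Equiv.Perm S.Ω × Equiv.Perm S'.Ω) (S.B, S'.B) :=
      Prod.ext S.comm S'.comm
    exact h.map (ph _ _)
  f x := S.f x.1 * S'.f x.2
  norm_f x := by rw [norm_mul, S.norm_f, S'.norm_f, one_mul]

/-- the trivial system -/
def triv : FS where
  Ω := Unit
  A := 1
  B := 1
  comm := Commute.refl _
  f _ := 1
  norm_f _ := norm_one

lemma cor_pr (S S' : FS) (n : Fin 3 → ℤ) : (pr S S').cor n = S.cor n * S'.cor n := by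
  have hA : (pr S S').A ^ n 0 = ph _ _ (S.A ^ n 0, S'.A ^ n 0) := by
    change (ph _ _ (S.A, S'.A)) ^ n 0 = _
    rw [← map_zpow]; rfl
  have hB : (pr S S').B ^ n 1 = ph _ _ (S.B ^ n 1, S'.B ^ n 1) := by
    change (ph _ _ (S.B, S'.B)) ^ n 1 = _
    rw [← map_zpow]; rfl
  have hC : ((pr S S').A * (pr S S').B) ^ n 2 =
      ph _ _ ((S.A * S.B) ^ n 2, (S'.A * S'.B) ^ n 2) := by
    change (ph _ _ (S.A, S'.A) * ph _ _ (S.B, S'.B)) ^ n 2 = _
    rw [← map_mul, ← map_zpow]; rfl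
  unfold FS.cor
  rw [hA, hB, hC, div_mul_div_comm, Finset.sum_mul_sum, ← Finset.sum_product']
  congr 1
  · apply Finset.sum_congr rfl
    rintro ⟨x, y⟩ _
    change (S.f x * S'.f y) * (starRingEnd ℂ) (S.f ((S.A ^ n 0) x) * S'.f ((S'.A ^ n 0) y)) *
      (starRingEnd ℂ) (S.f ((S.B ^ n 1) x) * S'.f ((S'.B ^ n 1) y)) *
      (S.f (((S.A * S.B) ^ n 2) x) * S'.f (((S'.A * S'.B) ^ n 2) y)) = _
    rw [map_mul, map_mul]
    ring
  · change ((Fintype.card (S.Ω × S'.Ω) : ℕ) : ℂ) = _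
    rw [Fintype.card_prod]
    push_cast
    rfl

lemma card_ne (S : FS) : (Fintype.card S.Ω : ℂ) ≠ 0 := by
  exact_mod_cast Fintype.card_ne_zero

lemma cor_triv (n : Fin 3 → ℤ) : triv.cor n = 1 := by
  unfold FS.cor
  have h : ∀ x : triv.Ω, triv.f x = 1 := fun _ => rfl
  simp only [h, map_one, mul_one, Finset.sum_const, Finset.card_univ, nsmul_eq_mul]
  exact div_self (card_ne triv)

lemma norm_cor (S : FS) (n : Fin 3 → ℤ) : ‖S.cor n‖ ≤ 1 := by
  unfold FS.cor
  rw [norm_div, Complex.norm_natCast, div_le_one (by exact_mod_cast Fintype.card_pos)]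
  refine (norm_sum_le _ _).trans ?_
  have h : ∀ x ∈ (Finset.univ : Finset S.Ω), ‖S.f x * (starRingEnd ℂ) (S.f ((S.A ^ n 0) x)) *
      (starRingEnd ℂ) (S.f ((S.B ^ n 1) x)) * S.f (((S.A * S.B) ^ n 2) x)‖ ≤ 1 := by
    intro x _
    rw [norm_mul, norm_mul, norm_mul, RCLike.norm_conj, RCLike.norm_conj, S.norm_f, S.norm_f,
      S.norm_f, S.norm_f]
    norm_num
  refine (Finset.sum_le_sum h).trans ?_
  simp

lemma cor_one (S : FS) (τ M : ℕ) (hA : S.A ^ M = 1) (hB : S.B ^ M = 1) (h : M ∣ τ) :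
    S.cor (dg τ) = 1 := by
  obtain ⟨m, rfl⟩ := h
  have e1 : ∀ i, dg (M * m) i = ((M * m : ℕ) : ℤ) := fun _ => rfl
  have hA' : S.A ^ (dg (M * m) 0) = 1 := by rw [e1, zpow_natCast, pow_mul, hA, one_pow]
  have hB' : S.B ^ (dg (M * m) 1) = 1 := by rw [e1, zpow_natCast, pow_mul, hB, one_pow]
  have hC' : (S.A * S.B) ^ (dg (M * m) 2) = 1 := by
    rw [e1, zpow_natCast, S.comm.mul_pow, pow_mul, pow_mul, hA, hB, one_pow, mul_one]
  unfold FS.cor
  rw [hA', hB', hC']
  have h : ∀ x : S.Ω, S.f x * (starRingEnd ℂ) (S.f ((1 : Equiv.Perm S.Ω) x)) *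
      (starRingEnd ℂ) (S.f ((1 : Equiv.Perm S.Ω) x)) * S.f ((1 : Equiv.Perm S.Ω) x) = 1 := by
    intro x
    have h1 : S.f x * (starRingEnd ℂ) (S.f x) = 1 := by
      rw [Complex.mul_conj, Complex.normSq_eq_norm_sq, S.norm_f]
      norm_num
    rw [Equiv.Perm.one_apply]
    calc _ = (S.f x * (starRingEnd ℂ) (S.f x)) * (S.f x * (starRingEnd ℂ) (S.f x)) := by ring
      _ = 1 := by rw [h1, one_mul]
  rw [Finset.sum_congr rfl (fun x _ => h x)]
  simp only [Finset.sum_const, Finset.card_univ, nsmul_eq_mul, mul_one]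
  exact div_self (card_ne S)

/-- product of the first blocks -/
def tower (S : ℕ → FS) : ℕ → FS
  | 0 => triv
  | J + 1 => pr (tower S J) (S J)

lemma tower_early (S : ℕ → FS) (n : Fin 3 → ℤ) (j : ℕ) (h : ∀ i < j, (S i).cor n = 1) :
    (tower S j).cor n = 1 := by
  induction j with
  | zero => exact cor_triv n
  | succ j ih =>
    change (pr (tower S j) (S j)).cor n = 1
    rw [cor_pr, ih (fun i hi => h i (by omega)), h j (by omega), one_mul]

lemma tower_close (S : ℕ → FS) (n : Fin 3 → ℤ) (j : ℕ) (h : ∀ i < j, (S i).cor n = 1)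
    (h' : ∀ i, j < i → ‖(S i).cor n - 1‖ ≤ 1 / (100 * 2 ^ i)) (m : ℕ) :
    ‖(tower S (j + 1 + m)).cor n - (S j).cor n‖ ≤ (1 / 100) * (1 - 1 / 2 ^ m) := by
  induction m with
  | zero =>
    change ‖(pr (tower S j) (S j)).cor n - (S j).cor n‖ ≤ _
    rw [cor_pr, tower_early S n j h, one_mul, sub_self]
    norm_num
  | succ m ih =>
    change ‖(pr (tower S (j + 1 + m)) (S (j + 1 + m))).cor n - (S j).cor n‖ ≤ _
    rw [cor_pr]
    have e : (tower S (j + 1 + m)).cor n * (S (j + 1 + m)).cor n - (S j).cor n =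
        ((tower S (j + 1 + m)).cor n - (S j).cor n) * (S (j + 1 + m)).cor n +
          (S j).cor n * ((S (j + 1 + m)).cor n - 1) := by ring
    rw [e]
    have h1 := h' (j + 1 + m) (by omega)
    have h2 : (1 : ℝ) / (100 * 2 ^ (j + 1 + m)) ≤ 1 / (100 * 2 ^ (m + 1)) := by
      apply one_div_le_one_div_of_le (by positivity)
      apply mul_le_mul_of_nonneg_left _ (by norm_num)
      exact pow_le_pow_right₀ (by norm_num) (by omega)
    calc _ ≤ ‖(tower S (j + 1 + m)).cor n - (S j).cor n‖ * 1 + 1 * (1 / (100 * 2 ^ (m + 1))) := by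
          refine (norm_add_le _ _).trans (add_le_add ?_ ?_)
          · rw [norm_mul]
            exact mul_le_mul_of_nonneg_left (norm_cor _ _) (norm_nonneg _)
          · rw [norm_mul]
            exact mul_le_mul (norm_cor _ _) (h1.trans h2) (norm_nonneg _) (by norm_num)
      _ ≤ (1 / 100) * (1 - 1 / 2 ^ m) * 1 + 1 * (1 / (100 * 2 ^ (m + 1))) := by
          gcongr
      _ = (1 / 100) * (1 - 1 / 2 ^ (m + 1)) := by
          rw [pow_succ]
          field_simp
          ring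

end REC

open REC

theorem t_REC (h : S_BLK) : S_REC := by
  intro n d p p' q w hyp
  have H : ∀ (j P K : ℕ), 0 < P → ∃ (S : FS) (M : ℕ)
      (N : Finset (Fin (n j)) → (Fin (n j) → Fin (q j)) → ℕ), 0 < M ∧ S.A ^ M = 1 ∧
      S.B ^ M = 1 ∧ Loc (d j) N ∧ (∀ b, P ∣ tot N b) ∧
      (∀ k ≤ K, ‖S.cor (dg k) - 1‖ ≤ 1 / (100 * 2 ^ j)) ∧
      ∀ b, (w j b = false → ‖S.cor (dg (tot N b)) - 1‖ ≤ 1 / 20) ∧
        (w j b = true → (S.cor (dg (tot N b))).re ≤ 1 / 20) := by
    intro j P K hP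
    obtain ⟨h1, h2, h3, h4, h5, h6, h7⟩ := hyp j
    exact h (n j) (d j) (p j) (p' j) (q j) h1 h2 h3 h4 h5 h6 h7 (w j) P K _ hP (by positivity)
  choose S M N hM hA hB hLoc hdvd hK hval using H
  let st : ℕ → {s : ℕ × ℕ // 0 < s.1} := fun j => Nat.rec ⟨(1, 0), one_pos⟩
    (fun j s => ⟨(s.1.1 * M j s.1.1 s.1.2 s.2, s.1.2 + ∑ b, tot (N j s.1.1 s.1.2 s.2) b),
      Nat.mul_pos s.2 (hM _ _ _ _)⟩) j
  have hst : ∀ j, st (j + 1) = ⟨((st j).1.1 * M j (st j).1.1 (st j).1.2 (st j).2,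
      (st j).1.2 + ∑ b, tot (N j (st j).1.1 (st j).1.2 (st j).2) b),
      Nat.mul_pos (st j).2 (hM _ _ _ _)⟩ := fun j => rfl
  set S' : ℕ → FS := fun j => S j (st j).1.1 (st j).1.2 (st j).2 with hS'
  set M' : ℕ → ℕ := fun j => M j (st j).1.1 (st j).1.2 (st j).2 with hM'
  have hP1 : ∀ j, (st (j + 1)).1.1 = (st j).1.1 * M' j := fun j => by rw [hst]
  have hK1 : ∀ j, (st (j + 1)).1.2 = (st j).1.2 +
      ∑ b, tot (N j (st j).1.1 (st j).1.2 (st j).2) b := fun j => by rw [hst]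
  have hdiv : ∀ i j, i < j → M' i ∣ (st j).1.1 := by
    intro i j hij
    induction j with
    | zero => omega
    | succ j ih =>
      rw [hP1]
      rcases Nat.lt_succ_iff_lt_or_eq.1 hij with h1 | h1
      · exact Dvd.dvd.mul_right (ih h1) _
      · rw [h1]; exact Dvd.intro_left _ rfl
  have hmono : Monotone fun j => (st j).1.2 := by
    apply monotone_nat_of_le_succ
    intro j
    change (st j).1.2 ≤ (st (j + 1)).1.2
    rw [hK1]
    exact Nat.le_add_right _ _
  have hmain : ∀ j b m, ‖(tower S' (j + 1 + m)).cor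
      (dg (tot (N j (st j).1.1 (st j).1.2 (st j).2) b)) -
        (S' j).cor (dg (tot (N j (st j).1.1 (st j).1.2 (st j).2) b))‖ ≤ 1 / 100 := by
    intro j b m
    refine (tower_close S' _ j ?_ ?_ m).trans ?_
    · intro i hi
      exact cor_one _ _ (M' i) (hA _ _ _ _) (hB _ _ _ _)
        ((hdiv i j hi).trans (hdvd _ _ _ _ _))
    · intro i hi
      apply hK
      have h1 : (st (j + 1)).1.2 ≤ (st i).1.2 := hmono (Nat.succ_le_of_lt hi)
      refine le_trans ?_ h1
      rw [hK1]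
      refine le_trans ?_ (Nat.le_add_left _ _)
      exact Finset.single_le_sum (f := fun b => tot (N j (st j).1.1 (st j).1.2 (st j).2) b)
        (fun _ _ => Nat.zero_le _) (Finset.mem_univ b)
    · have : (0 : ℝ) ≤ 1 / 2 ^ m := by positivity
      linarith
  refine ⟨fun J => tower S' J, fun j => N j (st j).1.1 (st j).1.2 (st j).2,
    fun j => hLoc _ _ _ _, fun j b => ⟨fun hw => ?_, fun hw => ?_⟩⟩
  · filter_upwards [eventually_ge_atTop (j + 1)] with J hJ
    obtain ⟨m, rfl⟩ := Nat.exists_eq_add_of_le hJ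
    have h1 := hmain j b m
    have h2 := (hval j (st j).1.1 (st j).1.2 (st j).2 b).1 hw
    calc _ = ‖((tower S' (j + 1 + m)).cor (dg (tot (N j (st j).1.1 (st j).1.2 (st j).2) b)) -
        (S' j).cor (dg (tot (N j (st j).1.1 (st j).1.2 (st j).2) b))) +
        ((S' j).cor (dg (tot (N j (st j).1.1 (st j).1.2 (st j).2) b)) - 1)‖ := by
          congr 1; ring
      _ ≤ 1 / 100 + 1 / 20 := (norm_add_le _ _).trans (add_le_add h1 h2)
      _ ≤ 1 / 10 := by norm_num
  · filter_upwards [eventually_ge_atTop (j + 1)] with J hJ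
    obtain ⟨m, rfl⟩ := Nat.exists_eq_add_of_le hJ
    have h1 := hmain j b m
    have h2 := (hval j (st j).1.1 (st j).1.2 (st j).2 b).2 hw
    have h3 := (Complex.re_le_norm ((tower S' (j + 1 + m)).cor
      (dg (tot (N j (st j).1.1 (st j).1.2 (st j).2) b)) -
        (S' j).cor (dg (tot (N j (st j).1.1 (st j).1.2 (st j).2) b)))).trans h1
    rw [Complex.sub_re] at h3
    change ((S' j).cor _).re ≤ _ at h2
    linarith

end Pool.Agent.K6.H25.MC
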