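import Pool.Agent.K6.H25.MC.Stm

set_option autoImplicit false

open MeasureTheory Filter Topology

namespace Pool.Agent.K6.H25.MC

theorem t_SYS (h1 : S_LIM) (h2 : S_REC) : S_SYS := by
  intro n d p p' q w hyp
  obtain ⟨S, N, hloc, hS⟩ := h2 n d p p' q w hyp
  obtain ⟨X, mX, μ, hμ, T, f, hsys, hlim⟩ := h1 S
  refine ⟨X, mX, μ, hμ, T, f, N, hsys, hloc, fun j b => ⟨fun hw => ?_, fun hw => ?_⟩⟩
  · have hcl : IsClosed {z : ℂ | 9 / 10 ≤ z.re} :=
      isClosed_le continuous_const Complex.continuous_re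
    refine hlim (dg (tot (N j) b)) _ hcl ?_
    filter_upwards [(hS j b).1 hw] with J hJ
    have h3 : |((S J).cor (dg (tot (N j) b)) - 1).re| ≤ 1 / 10 :=
      (Complex.abs_re_le_norm _).trans hJ
    rw [Complex.sub_re, Complex.one_re] at h3
    have := (abs_le.1 h3).1
    show 9 / 10 ≤ _
    linarith
  · have hcl : IsClosed {z : ℂ | z.re ≤ 1 / 10} :=
      isClosed_le Complex.continuous_re continuous_const
    exact hlim (dg (tot (N j) b)) _ hcl ((hS j b).2 hw)

end Pool.Agent.K6.H25.MC
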