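import Mathlib

/-!
# Multiple correlation sequences and integrals of nilsequences of all steps (MP_b4ed41_an):
definitions and exact statements of the pieces (helper25)
-/

set_option autoImplicit false
set_option linter.unusedVariables false

open MeasureTheory Filter Topology
open scoped Manifold ContDiff

namespace Pool.Agent.K6.H25.MC

/-! ## Nilsequences -/

/-- Basic `k`-step nilsequence in `ℓ` variables: `G` is a Lie group, nilpotent of class at most `k`,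
`Γ` a discrete cocompact subgroup, `F` continuous on `G / Γ`, `b₁, …, b_ℓ ∈ G`, `z ∈ G / Γ`, and
`ψ n = F (b₁ ^ n₁ ⋯ b_ℓ ^ n_ℓ z)`. -/
def Basic (ℓ k : ℕ) (ψ : (Fin ℓ → ℤ) → ℂ) : Prop :=
  ∃ (V : Type) (_ : NormedAddCommGroup V) (_ : NormedSpace ℝ V) (_ : FiniteDimensional ℝ V)
    (G : Type) (_ : Group G) (_ : TopologicalSpace G) (_ : T2Space G) (_ : ChartedSpace V G)
    (_ : LieGroup 𝓘(ℝ, V) ∞ G) (Γ : Subgroup G),
    (⊤ : Subgroup G).lowerCentralSeries k = ⊥ ∧ DiscreteTopology Γ ∧ CompactSpace (G ⧸ Γ) ∧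
    ∃ (F : G ⧸ Γ → ℂ) (b : Fin ℓ → G) (z : G ⧸ Γ), Continuous F ∧
      ∀ n : Fin ℓ → ℤ, ψ n = F ((List.ofFn fun i => b i ^ n i).prod • z)

/-- `k`-step nilsequence: uniform limit of basic ones -/
def Nilseq (ℓ k : ℕ) (ψ : (Fin ℓ → ℤ) → ℂ) : Prop :=
  ∀ ε : ℝ, 0 < ε → ∃ ψ', Basic ℓ k ψ' ∧ ∀ n, ‖ψ n - ψ' n‖ ≤ ε

/-! ## Systems -/

/-- commuting invertible measure preserving transformations and functions bounded by one -/
def IsSys {X : Type} [MeasurableSpace X] (μ : Measure X) {ℓ : ℕ} (T : Fin ℓ → Equiv.Perm X)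
    (f : Fin (ℓ + 1) → X → ℂ) : Prop :=
  (∀ i, MeasurePreserving (T i) μ μ) ∧ (∀ i, MeasurePreserving (T i).symm μ μ) ∧
    (∀ i j, Commute (T i) (T j)) ∧ (∀ i, Measurable (f i)) ∧ ∀ i x, ‖f i x‖ ≤ 1

/-- the multiple correlation sequence `∫ f₀ · T₁ ^ n₁ f₁ ⋯ T_ℓ ^ n_ℓ f_ℓ dμ` -/
noncomputable def Cor {X : Type} [MeasurableSpace X] (μ : Measure X) {ℓ : ℕ}
    (T : Fin ℓ → Equiv.Perm X) (f : Fin (ℓ + 1) → X → ℂ) (n : Fin ℓ → ℤ) : ℂ :=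
  ∫ x, f 0 x * ∏ i : Fin ℓ, f i.succ ((T i ^ n i) x) ∂μ

/-- the diagonal point `(k, k, k)` -/
def dg (k : ℕ) : Fin 3 → ℤ := fun _ => (k : ℤ)

/-- Finite systems with two commuting permutations and a function of modulus one. -/
structure FS where
  Ω : Type
  [fin : Fintype Ω]
  [ne : Nonempty Ω]
  A : Equiv.Perm Ω
  B : Equiv.Perm Ω
  comm : Commute A B
  f : Ω → ℂ
  norm_f : ∀ x, ‖f x‖ = 1

attribute [instance] FS.fin FS.ne

/-- the correlation sequence `E f · conj f(Aⁿ¹ x) · conj f(Bⁿ² x) · f((AB)ⁿ³ x)` -/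
noncomputable def FS.cor (S : FS) (n : Fin 3 → ℤ) : ℂ :=
  (∑ x : S.Ω, S.f x * (starRingEnd ℂ) (S.f ((S.A ^ n 0) x)) *
    (starRingEnd ℂ) (S.f ((S.B ^ n 1) x)) * S.f (((S.A * S.B) ^ n 2) x)) / (Fintype.card S.Ω : ℂ)

/-- LIM: limits of correlation sequences of finite systems are correlation sequences. -/
def S_LIM : Prop := ∀ S : ℕ → FS, ∃ (X : Type) (_ : MeasurableSpace X) (μ : Measure X)
  (_ : IsProbabilityMeasure μ) (T : Fin 3 → Equiv.Perm X) (f : Fin 4 → X → ℂ), IsSys μ T f ∧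
  ∀ (n : Fin 3 → ℤ) (K : Set ℂ), IsClosed K → (∀ᶠ J in atTop, (S J).cor n ∈ K) →
    Cor μ T f n ∈ K

/-! ## The times of a block -/

/-- `N S b` depends only on the coordinates of `b` in `S` and vanishes for `|S| > d`. -/
def Loc {n q : ℕ} (d : ℕ) (N : Finset (Fin n) → (Fin n → Fin q) → ℕ) : Prop :=
  (∀ S b b', (∀ i ∈ S, b i = b' i) → N S b = N S b') ∧ ∀ S b, d < S.card → N S b = 0

/-- the time of `b` -/
def tot {n q : ℕ} (N : Finset (Fin n) → (Fin n → Fin q) → ℕ) (b : Fin n → Fin q) : ℕ :=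
  ∑ S : Finset (Fin n), N S b

/-- NIL: a nilsequence of step `k` at the times of a block is up to `ε` a function of finitely many
colours, each independent of one coordinate of `b`. -/
def S_NIL : Prop := ∀ (k n d : ℕ) (ψ : (Fin 3 → ℤ) → ℂ), k * d < n → Basic 3 k ψ →
  ∀ ε : ℝ, 0 < ε → ∃ m : ℕ, ∀ (q : ℕ) (N : Finset (Fin n) → (Fin n → Fin q) → ℕ), Loc d N →
    ∃ V : Fin n → (Fin n → Fin q) → Fin m,
      (∀ i b b', (∀ j, j ≠ i → b j = b' j) → V i b = V i b') ∧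
      ∀ b b', (∀ i, V i b = V i b') → ‖ψ (dg (tot N b)) - ψ (dg (tot N b'))‖ ≤ ε

/-- WFE: every discrete cocompact subgroup of a nilpotent locally compact group gives a filtration
with bounded fundamental domains on a suitable subgroup containing a given finite set. -/
def S_WFE : Prop := ∀ (G : Type) [Group G] [TopologicalSpace G] [IsTopologicalGroup G] [T2Space G]
  [LocallyCompactSpace G] (Γ : Subgroup G) (k : ℕ), (⊤ : Subgroup G).lowerCentralSeries k = ⊥ →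
  DiscreteTopology Γ → CompactSpace (G ⧸ Γ) → ∀ E : Finset G,
  ∃ (L : Subgroup G) (H : ℕ → Subgroup L) (K : Set G) (C : ℕ → Set L), (∀ g ∈ E, g ∈ L) ∧
    IsCompact K ∧ H 0 = ⊤ ∧ H 1 = ⊤ ∧ H (k + 1) = ⊥ ∧ Antitone H ∧
    (∀ i j, ⁅H i, H j⁆ ≤ H (i + j)) ∧ (∀ i, C i ⊆ (H i : Set L)) ∧
    (∀ i, ∀ c ∈ C i, (c : G) ∈ K) ∧ ∀ i, ∀ x ∈ H i, ∃ c ∈ C i, ((c⁻¹ * x : L) : G) ∈ Γ

/-- CNT: signs which are uncorrelated with all functions of few colours, each independent of one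
coordinate. -/
def S_CNT : Prop := ∀ (n m : ℕ), 1 ≤ n → ∀ ε : ℝ, 0 < ε → ∃ (q : ℕ) (s : (Fin n → Fin q) → Bool),
  1 ≤ q ∧ ∀ (V : Fin n → (Fin n → Fin q) → Fin m) (h : (Fin n → Fin m) → ℂ),
    (∀ i b b', (∀ j, j ≠ i → b j = b' j) → V i b = V i b') → (∀ c, ‖h c‖ ≤ 1) →
    ‖∑ b, (if s b then (-1 : ℂ) else 1) * h (fun i => V i b)‖ ≤ ε * (q : ℝ) ^ n

/-! ## The finite systems of the blocks -/

/-- MV: the function `[p ∣ number of coordinates which disagree]` is a polynomial of degree less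
than `p` in the indicator functions of the agreements, modulo `p`. -/
def S_MV : Prop := ∀ (p n : ℕ), p.Prime → ∃ lam : Finset (Fin n) → ZMod p,
  (∀ S, p ≤ S.card → lam S = 0) ∧
  ∀ E : Finset (Fin n), ∑ S ∈ E.powerset, lam S = if p ∣ n - E.card then 1 else 0

/-- FLD: a finite field with elements of orders `p` and `p'`, and an additive character. -/
def S_FLD : Prop := ∀ p p' : ℕ, p.Prime → p'.Prime → ∃ (r : ℕ) (_ : Fact r.Prime)
  (α β t : ZMod r), α ^ p = 1 ∧ α ≠ 1 ∧ β ^ p' = 1 ∧ β ≠ 1 ∧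
  ∑ i ∈ Finset.range p, ∑ j ∈ Finset.range p',
    (ZMod.stdAddChar (t * ((1 - α) * (1 - β) * (α ^ i * β ^ j)))).re ≤ 0

open Classical in
/-- the number of `x` at which the digits of `x + N g` are not those of `x` plus `v` -/
noncomputable def bad {H U : Type} [AddCommGroup H] [Fintype H] [AddCommGroup U] (D : H → U)
    (g : H) (N : ℕ) (v : U) : ℕ :=
  (Finset.univ.filter fun x : H => D (x + N • g) ≠ D x + v).card

/-- DM: digits. -/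
def S_DM : Prop := ∀ (T L P K : ℕ) (δ : ℝ), 0 < L → 0 < P → 0 < δ → ∃ a : Fin T → ℕ,
  (∀ t, P ∣ a t) ∧ ∀ p : ℕ, 0 < p → p ∣ L →
  ∃ (H : Type) (_ : AddCommGroup H) (_ : Fintype H) (g : H) (D : H → Fin T → ZMod p) (M : ℕ),
    0 < M ∧ M • g = 0 ∧ (∀ t, ∃ h : H, ∀ x, D (x + h) = D x + Pi.single t 1) ∧
    (∀ S : Finset (Fin T),
      (bad D g (∑ t ∈ S, a t) (fun t => if t ∈ S then 1 else 0) : ℝ) ≤ δ * Fintype.card H) ∧
    ∀ k ≤ K, (bad D g k 0 : ℝ) ≤ δ * Fintype.card H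

/-- ABS: the correlation of a function of digits. -/
def S_ABS : Prop := ∀ (H H' U U' : Type) [AddCommGroup H] [AddCommGroup H'] [AddCommGroup U]
  [AddCommGroup U'] [Fintype H] [Fintype H'] (g : H) (g' : H') (D : H → U) (D' : H' → U')
  (φ : U → U' → ℂ), (∀ u v, ‖φ u v‖ = 1) →
  ∃ S : FS, (∀ M : ℕ, M • g = 0 → S.A ^ M = 1) ∧ (∀ M : ℕ, M • g' = 0 → S.B ^ M = 1) ∧
    ∀ (N : ℕ) (v : U) (v' : U') (δ : ℝ), (bad D g N v : ℝ) ≤ δ * Fintype.card H →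
      (bad D' g' N v' : ℝ) ≤ δ * Fintype.card H' →
      ‖S.cor (dg N) - (∑ x : H, ∑ y : H', φ (D x) (D' y) * (starRingEnd ℂ) (φ (D x + v) (D' y)) *
        (starRingEnd ℂ) (φ (D x) (D' y + v')) * φ (D x + v) (D' y + v')) /
          ((Fintype.card H : ℂ) * Fintype.card H')‖ ≤ 4 * δ

/-- UNI: scalar products of the digits with nonzero vectors are uniformly distributed. -/
def S_UNI : Prop := ∀ (p p' : ℕ) [Fact p.Prime] [Fact p'.Prime] (T : ℕ) (H H' : Type)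
  [AddCommGroup H] [AddCommGroup H'] [Fintype H] [Fintype H'] (D : H → Fin T → ZMod p)
  (D' : H' → Fin T → ZMod p'), (∀ t, ∃ h : H, ∀ x, D (x + h) = D x + Pi.single t 1) →
  (∀ t, ∃ h : H', ∀ x, D' (x + h) = D' x + Pi.single t 1) →
  ∀ (u : Fin T → ZMod p) (u' : Fin T → ZMod p'), u ≠ 0 → u' ≠ 0 →
  ∀ Φ : ℕ → ℕ → ℝ, ∑ i ∈ Finset.range p, ∑ j ∈ Finset.range p', Φ i j ≤ 0 →
    ∑ x : H, ∑ y : H', Φ (∑ t, u t * D x t).val (∑ t, u' t * D' y t).val ≤ 0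

/-- BLK: the block systems. -/
def S_BLK : Prop := ∀ (n d p p' q : ℕ), p.Prime → p'.Prime → p ≠ p' → p ≤ d + 1 → p' ≤ d + 1 →
  n < p * p' → 1 ≤ q → ∀ (w : (Fin n → Fin q) → Bool) (P K : ℕ) (η : ℝ), 0 < P → 0 < η →
  ∃ (S : FS) (M : ℕ) (N : Finset (Fin n) → (Fin n → Fin q) → ℕ), 0 < M ∧ S.A ^ M = 1 ∧
    S.B ^ M = 1 ∧ Loc d N ∧ (∀ b, P ∣ tot N b) ∧ (∀ k ≤ K, ‖S.cor (dg k) - 1‖ ≤ η) ∧
    ∀ b, (w b = false → ‖S.cor (dg (tot N b)) - 1‖ ≤ 1 / 20) ∧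
      (w b = true → (S.cor (dg (tot N b))).re ≤ 1 / 20)

/-- REC: all blocks together. The blocks are indexed by `j`; `n j`, `d j`, `q j`, `w j` are given. -/
def S_REC : Prop := ∀ (n d p p' q : ℕ → ℕ) (w : ∀ j, (Fin (n j) → Fin (q j)) → Bool),
  (∀ j, (p j).Prime ∧ (p' j).Prime ∧ p j ≠ p' j ∧ p j ≤ d j + 1 ∧ p' j ≤ d j + 1 ∧
    n j < p j * p' j ∧ 1 ≤ q j) →
  ∃ (S : ℕ → FS) (N : ∀ j, Finset (Fin (n j)) → (Fin (n j) → Fin (q j)) → ℕ),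
    (∀ j, Loc (d j) (N j)) ∧ ∀ j b,
      (w j b = false → ∀ᶠ J in atTop, ‖(S J).cor (dg (tot (N j) b)) - 1‖ ≤ 1 / 10) ∧
      (w j b = true → ∀ᶠ J in atTop, ((S J).cor (dg (tot (N j) b))).re ≤ 1 / 10)

/-- SYS: the system. -/
def S_SYS : Prop := ∀ (n d p p' q : ℕ → ℕ) (w : ∀ j, (Fin (n j) → Fin (q j)) → Bool),
  (∀ j, (p j).Prime ∧ (p' j).Prime ∧ p j ≠ p' j ∧ p j ≤ d j + 1 ∧ p' j ≤ d j + 1 ∧
    n j < p j * p' j ∧ 1 ≤ q j) →
  ∃ (X : Type) (_ : MeasurableSpace X) (μ : Measure X) (_ : IsProbabilityMeasure μ)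
    (T : Fin 3 → Equiv.Perm X) (f : Fin 4 → X → ℂ)
    (N : ∀ j, Finset (Fin (n j)) → (Fin (n j) → Fin (q j)) → ℕ),
    IsSys μ T f ∧ (∀ j, Loc (d j) (N j)) ∧ ∀ j b,
      (w j b = false → 9 / 10 ≤ (Cor μ T f (dg (tot (N j) b))).re) ∧
      (w j b = true → (Cor μ T f (dg (tot (N j) b))).re ≤ 1 / 10)

/-- MAIN: a correlation sequence of three commuting transformations which is not at distance at most
`1 / 10` from an integral combination of nilsequences. -/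
def S_MAIN : Prop := ∃ (X : Type) (_ : MeasurableSpace X) (μ : Measure X)
  (_ : IsProbabilityMeasure μ) (T : Fin 3 → Equiv.Perm X) (f : Fin 4 → X → ℂ), IsSys μ T f ∧
  ¬ ∃ (Y : Type) (_ : MeasurableSpace Y) (ν : Measure Y) (_ : IsFiniteMeasure ν) (h : Y → ℂ)
    (k : Y → ℕ) (N : Y → (Fin 3 → ℤ) → ℂ) (M : Y → ℝ), Measurable h ∧ Measurable M ∧
    (∀ y, Nilseq 3 (k y) (N y)) ∧ (∀ n, Measurable fun y => N y n) ∧
    (∀ y n, ‖N y n‖ ≤ M y) ∧ Integrable (fun y => (M y : ℂ) * h y) ν ∧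
    ∀ n, ‖Cor μ T f n - ∫ y, N y n * h y ∂ν‖ ≤ 1 / 10

/-- TRV1: with functions which are only Riemann integrable every bounded sequence is a basic
one-step nilsequence (on the torus `(ℝ / ℤ) ^ (ℓ + 1)`). -/
def S_TRV1 : Prop := ∀ (ℓ : ℕ) (C : (Fin ℓ → ℤ) → ℂ) (B : ℝ), (∀ n, ‖C n‖ ≤ B) →
  ∃ (b : Fin ℓ → (Fin (ℓ + 1) → UnitAddCircle)) (F : (Fin (ℓ + 1) → UnitAddCircle) → ℂ),
    (∀ x, ‖F x‖ ≤ |B|) ∧ volume {x | ¬ ContinuousAt F x} = 0 ∧ ∀ n, C n = F (∑ i, n i • b i)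

/-- TRV2: without a bound for the nilsequences every sequence is a sum of one-step nilsequences. -/
def S_TRV2 : Prop := ∀ (ℓ : ℕ) (C : (Fin ℓ → ℤ) → ℂ),
  ∃ (b : Fin ℓ → (Fin ℓ → UnitAddCircle)) (F : ℕ → (Fin ℓ → UnitAddCircle) → ℂ),
    (∀ j, Continuous (F j)) ∧ ∀ n, {j | F j (∑ i, n i • b i) ≠ 0}.Finite ∧
      C n = ∑' j, F j (∑ i, n i • b i)

end Pool.Agent.K6.H25.MC
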