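import Pool.Agent.K6.H25.MC.Stm

/-!
Pieces TRV1 and the common lemma of TRV1 and TRV2 (helper45).
-/

set_option autoImplicit false

open MeasureTheory Filter Topology

namespace Pool.Agent.K6.H25.MC

/-- multiples of `√2` on the circle are different -/
theorem zsmul_sqrt_two_inj {n m : ℤ}
    (h : n • ((Real.sqrt 2 : ℝ) : UnitAddCircle) = m • ((Real.sqrt 2 : ℝ) : UnitAddCircle)) :
    n = m := by
  have h1 : (((n - m) • Real.sqrt 2 : ℝ) : UnitAddCircle) = 0 := by
    have h2 : ((((n - m) • Real.sqrt 2 : ℝ)) : UnitAddCircle) =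
        (n - m) • ((Real.sqrt 2 : ℝ) : UnitAddCircle) := rfl
    rw [h2, sub_smul, h, sub_self]
  rw [AddCircle.coe_eq_zero_iff] at h1
  obtain ⟨k, hk⟩ := h1
  by_contra hne
  have h3 : ((n - m : ℤ) : ℝ) ≠ 0 := by exact_mod_cast sub_ne_zero.2 hne
  have h4 : Real.sqrt 2 = (k : ℝ) / ((n - m : ℤ) : ℝ) := by
    rw [eq_div_iff h3]
    simp only [zsmul_eq_mul, mul_one] at hk
    rw [hk, mul_comm]
  exact (irrational_iff_ne_rational _).1 irrational_sqrt_two k (n - m)
    (by exact_mod_cast h3) (by rw [h4])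

theorem t_TRV1 : S_TRV1 := by
  classical
  intro ℓ C B hC
  set b : Fin ℓ → (Fin (ℓ + 1) → UnitAddCircle) := fun i =>
    Pi.single i.castSucc ((Real.sqrt 2 : ℝ) : UnitAddCircle) with hb
  have hcoord : ∀ (n : Fin ℓ → ℤ) (j : Fin ℓ),
      (∑ i, n i • b i) j.castSucc = n j • ((Real.sqrt 2 : ℝ) : UnitAddCircle) := by
    intro n j
    rw [Finset.sum_apply, Finset.sum_eq_single j]
    · simp [hb]
    · intro i _ hij
      have : i.castSucc ≠ j.castSucc := fun h => hij (Fin.castSucc_injective _ h)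
      simp [hb, this.symm]
    · intro h
      exact absurd (Finset.mem_univ j) h
  have hlast : ∀ n : Fin ℓ → ℤ, (∑ i, n i • b i) (Fin.last ℓ) = 0 := by
    intro n
    rw [Finset.sum_apply]
    refine Finset.sum_eq_zero fun i _ => ?_
    have : Fin.last ℓ ≠ i.castSucc := (Fin.castSucc_lt_last i).ne'
    simp [hb, this]
  have hinj : ∀ n m : Fin ℓ → ℤ, (∑ i, n i • b i) = (∑ i, m i • b i) → n = m := by
    intro n m h
    funext j
    have h1 := congrFun h j.castSucc
    rw [hcoord, hcoord] at h1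
    exact zsmul_sqrt_two_inj h1
  set F : (Fin (ℓ + 1) → UnitAddCircle) → ℂ := fun x =>
    if h : ∃ n : Fin ℓ → ℤ, x = ∑ i, n i • b i then C h.choose else 0 with hF
  refine ⟨b, F, ?_, ?_, ?_⟩
  · intro x
    simp only [hF]
    split_ifs with h
    · exact (hC _).trans (le_abs_self B)
    · simp
  · have hsub : {x | ¬ ContinuousAt F x} ⊆
        {x : Fin (ℓ + 1) → UnitAddCircle | x (Fin.last ℓ) = 0} := by
      intro x hx
      by_contra hne
      apply hx
      have hopen : IsOpen {x : Fin (ℓ + 1) → UnitAddCircle | x (Fin.last ℓ) ≠ 0} :=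
        isOpen_ne_fun (continuous_apply _) continuous_const
      have hev : F =ᶠ[𝓝 x] fun _ => 0 := by
        filter_upwards [hopen.mem_nhds hne] with y hy
        simp only [hF]
        rw [dif_neg]
        rintro ⟨n, rfl⟩
        exact hy (hlast n)
      exact continuousAt_const.congr hev.symm
    refine measure_mono_null hsub ?_
    have : NullSingletonClass (volume : Measure UnitAddCircle) := ⟨fun x => by
      rw [← Metric.closedBall_zero, AddCircle.volume_closedBall]
      simp⟩
    exact Measure.pi_hyperplane (fun _ => (volume : Measure UnitAddCircle)) (Fin.last ℓ) 0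
  · intro n
    have h : ∃ m : Fin ℓ → ℤ, (∑ i, n i • b i) = ∑ i, m i • b i := ⟨n, rfl⟩
    simp only [hF]
    rw [dif_pos h]
    rw [← hinj n _ h.choose_spec]

end Pool.Agent.K6.H25.MC
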