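import Pool.Agent.K6.H25.MC.TRV1

/-!
Piece TRV2 (helper45).
-/

set_option autoImplicit false

open MeasureTheory Filter Topology

namespace Pool.Agent.K6.H25.MC

/-- solution of a triangular system -/
noncomputable def triCoef (a : ℕ → ℕ → ℂ) (C : ℕ → ℂ) : ℕ → ℂ
  | j => C j - ∑ i : Fin j, triCoef a C i.1 * a i.1 j
termination_by j => j
decreasing_by exact i.2

theorem triCoef_eq (a : ℕ → ℕ → ℂ) (C : ℕ → ℂ) (j : ℕ) :
    triCoef a C j + ∑ i ∈ Finset.range j, triCoef a C i * a i j = C j := by
  rw [triCoef, Finset.sum_range fun i => triCoef a C i * a i j]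
  ring

/-- a continuous function which is one at `y` and zero at the points of `S` -/
theorem exists_bump {X : Type} [MetricSpace X] (y : X) (S : Finset X) (hy : y ∉ S) :
    ∃ g : X → ℂ, Continuous g ∧ g y = 1 ∧ ∀ s ∈ S, g s = 0 := by
  refine ⟨fun x => ∏ s ∈ S, ((dist x s / dist y s : ℝ) : ℂ), ?_, ?_, ?_⟩
  · refine continuous_finsetProd _ fun s _ => ?_
    exact Complex.continuous_ofReal.comp ((continuous_id.dist continuous_const).div_const _)
  · refine Finset.prod_eq_one fun s hs => ?_
    have : dist y s ≠ 0 := by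
      rw [dist_ne_zero]
      rintro rfl
      exact hy hs
    rw [div_self this, Complex.ofReal_one]
  · intro s hs
    refine Finset.prod_eq_zero hs ?_
    rw [dist_self, zero_div, Complex.ofReal_zero]

theorem t_TRV2 : S_TRV2 := by
  classical
  intro ℓ C
  set b : Fin ℓ → (Fin ℓ → UnitAddCircle) := fun i =>
    Pi.single i ((Real.sqrt 2 : ℝ) : UnitAddCircle) with hb
  have hcoord : ∀ (n : Fin ℓ → ℤ) (j : Fin ℓ),
      (∑ i, n i • b i) j = n j • ((Real.sqrt 2 : ℝ) : UnitAddCircle) := by
    intro n j
    rw [Finset.sum_apply, Finset.sum_eq_single j]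
    · simp [hb]
    · intro i _ hij
      simp [hb, hij.symm]
    · intro h
      exact absurd (Finset.mem_univ j) h
  set x : (Fin ℓ → ℤ) → (Fin ℓ → UnitAddCircle) := fun n => ∑ i, n i • b i with hx
  have hinj : Function.Injective x := by
    intro n m h
    funext j
    have h1 := congrFun h j
    simp only [hx] at h1
    rw [hcoord, hcoord] at h1
    exact zsmul_sqrt_two_inj h1
  obtain ⟨e, he⟩ : ∃ e : (Fin ℓ → ℤ) → ℕ, Function.Injective e := Countable.exists_injective_nat _
  -- the bump functions
  have hg : ∀ j : ℕ, ∃ g : (Fin ℓ → UnitAddCircle) → ℂ, Continuous g ∧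
      (∀ n, e n = j → g (x n) = 1) ∧ ∀ n, e n < j → g (x n) = 0 := by
    intro j
    by_cases hj : ∃ n, e n = j
    · obtain ⟨n, hn⟩ := hj
      have hfin : {m | e m < j}.Finite :=
        (Set.finite_lt_nat j).preimage he.injOn
      obtain ⟨g, h1, h2, h3⟩ := exists_bump (x n) (hfin.toFinset.image x) (by
        rw [Finset.mem_image]
        rintro ⟨m, hm, hmn⟩
        rw [Set.Finite.mem_toFinset] at hm
        have : m = n := hinj hmn
        subst this
        exact absurd hm (by simp [hn]))
      refine ⟨g, h1, ?_, ?_⟩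
      · intro n' hn'
        rw [he (hn'.trans hn.symm)]
        exact h2
      · intro m hm
        refine h3 _ (Finset.mem_image_of_mem x ?_)
        rw [Set.Finite.mem_toFinset]
        exact hm
    · exact ⟨fun _ => 0, continuous_const, fun n hn => absurd ⟨n, hn⟩ hj, fun _ _ => rfl⟩
  choose g hgc hg1 hg0 using hg
  set nn : ℕ → (Fin ℓ → ℤ) := fun j => if h : ∃ n, e n = j then h.choose else 0 with hnn
  have hnne : ∀ n, nn (e n) = n := by
    intro n
    have h : ∃ m, e m = e n := ⟨n, rfl⟩
    simp only [hnn]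
    rw [dif_pos h]
    exact he h.choose_spec
  set c : ℕ → ℂ := triCoef (fun i j => g i (x (nn j))) (fun j => C (nn j)) with hc
  refine ⟨b, fun j y => c j * g j y, fun j => continuous_const.mul (hgc j), ?_⟩
  intro n
  have hzero : ∀ j, e n < j → c j * g j (x n) = 0 := by
    intro j hj
    rw [hg0 j n hj, mul_zero]
  have hsub : {j | c j * g j (x n) ≠ 0} ⊆ Set.Iic (e n) := by
    intro j hj
    by_contra hlt
    exact hj (hzero j (not_le.1 hlt))
  refine ⟨(Set.finite_Iic (e n)).subset hsub, ?_⟩
  show C n = ∑' j, c j * g j (x n)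
  rw [tsum_eq_sum (s := Finset.range (e n + 1))]
  · rw [Finset.sum_range_succ, hg1 (e n) n rfl, mul_one]
    have h5 := triCoef_eq (fun i j => g i (x (nn j))) (fun j => C (nn j)) (e n)
    simp only [hnne] at h5
    rw [← h5, hc, add_comm]
  · intro j hj
    apply hzero
    rw [Finset.mem_range] at hj
    omega

end Pool.Agent.K6.H25.MC
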