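import Pool.Agent.K6.H25.MC.Stm

/-! Piece UNI (helper78): scalar products of the digits with nonzero vectors are uniformly
distributed. -/

set_option autoImplicit false

namespace Pool.Agent.K6.H25.MC

lemma sum_val_range (p : ℕ) [NeZero p] (F : ℕ → ℝ) :
    ∑ c : ZMod p, F c.val = ∑ i ∈ Finset.range p, F i := by
  refine Finset.sum_nbij' (fun c => c.val) (fun i => (i : ZMod p)) ?_ ?_ ?_ ?_ ?_
  · intro c _
    exact Finset.mem_range.2 (ZMod.val_lt c)
  · intro i _
    exact Finset.mem_univ _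
  · intro c _
    exact ZMod.natCast_zmod_val c
  · intro i hi
    exact ZMod.val_cast_of_lt (Finset.mem_range.1 hi)
  · intro c _
    rfl

lemma uni_one (p : ℕ) [Fact p.Prime] (T : ℕ) (H : Type) [AddCommGroup H] [Fintype H]
    (D : H → Fin T → ZMod p)
    (hD : ∀ t, ∃ h : H, ∀ x, D (x + h) = D x + Pi.single t 1)
    (u : Fin T → ZMod p) (hu : u ≠ 0) (Ψ : ZMod p → ℝ) :
    (p : ℝ) * ∑ x : H, Ψ (∑ t, u t * D x t) = (Fintype.card H : ℝ) * ∑ c : ZMod p, Ψ c := by
  classical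
  obtain ⟨t0, ht0⟩ : ∃ t, u t ≠ 0 := by
    by_contra h
    push_neg at h
    exact hu (funext h)
  obtain ⟨h, hh⟩ := hD t0
  have hs : ∀ x, ∑ t, u t * D (x + h) t = ∑ t, u t * D x t + u t0 := by
    intro x
    rw [hh x]
    simp only [Pi.add_apply, mul_add, Finset.sum_add_distrib]
    congr 1
    rw [Finset.sum_eq_single t0]
    · rw [Pi.single_eq_same, mul_one]
    · intro t _ ht
      rw [Pi.single_eq_of_ne ht, mul_zero]
    · intro h0
      exact absurd (Finset.mem_univ _) h0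
  have hf : ∀ a : ZMod p, ∑ x : H, Ψ (∑ t, u t * D x t + (a + u t0)) =
      ∑ x : H, Ψ (∑ t, u t * D x t + a) := by
    intro a
    rw [← Equiv.sum_comp (Equiv.addRight h) (fun x => Ψ (∑ t, u t * D x t + a))]
    refine Finset.sum_congr rfl fun x _ => ?_
    rw [Equiv.coe_addRight, hs x]
    congr 1
    ring
  have hk : ∀ (k : ℕ), ∑ x : H, Ψ (∑ t, u t * D x t + (k : ZMod p) * u t0) =
      ∑ x : H, Ψ (∑ t, u t * D x t) := by
    intro k
    induction k with
    | zero =>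
      refine Finset.sum_congr rfl fun x _ => ?_
      simp
    | succ k ih =>
      rw [← ih, ← hf ((k : ZMod p) * u t0)]
      refine Finset.sum_congr rfl fun x _ => ?_
      congr 1
      push_cast
      ring
  have hc : ∀ c : ZMod p, ∑ x : H, Ψ (∑ t, u t * D x t + c) =
      ∑ x : H, Ψ (∑ t, u t * D x t) := by
    intro c
    rw [← hk (c * (u t0)⁻¹).val, ZMod.natCast_zmod_val, mul_assoc, inv_mul_cancel₀ ht0, mul_one]
  have h1 : ∑ c : ZMod p, ∑ x : H, Ψ (∑ t, u t * D x t + c) =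
      (p : ℝ) * ∑ x : H, Ψ (∑ t, u t * D x t) := by
    rw [Finset.sum_congr rfl fun c _ => hc c, Finset.sum_const, Finset.card_univ, ZMod.card,
      nsmul_eq_mul]
  rw [← h1, Finset.sum_comm]
  have h2 : ∀ x : H, ∑ c : ZMod p, Ψ (∑ t, u t * D x t + c) = ∑ c : ZMod p, Ψ c := by
    intro x
    exact Equiv.sum_comp (Equiv.addLeft (∑ t, u t * D x t)) Ψ
  rw [Finset.sum_congr rfl fun x _ => h2 x, Finset.sum_const, Finset.card_univ, nsmul_eq_mul]

theorem t_UNI : S_UNI := by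
  intro p p' _ _ T H H' _ _ _ _ D D' hD hD' u u' hu hu' Φ hΦ
  have hp : (0 : ℝ) < p := by exact_mod_cast (Fact.out : p.Prime).pos
  have hp' : (0 : ℝ) < p' := by exact_mod_cast (Fact.out : p'.Prime).pos
  have e1 : ∀ i : ℕ, (p' : ℝ) * ∑ y : H', Φ i (∑ t, u' t * D' y t).val =
      (Fintype.card H' : ℝ) * ∑ j ∈ Finset.range p', Φ i j := by
    intro i
    rw [uni_one p' T H' D' hD' u' hu' (fun c => Φ i c.val), sum_val_range p' (fun j => Φ i j)]
  have e2 : (p : ℝ) * ∑ x : H, ∑ y : H', Φ (∑ t, u t * D x t).val (∑ t, u' t * D' y t).val =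
      (Fintype.card H : ℝ) * ∑ i ∈ Finset.range p, ∑ y : H', Φ i (∑ t, u' t * D' y t).val := by
    rw [uni_one p T H D hD u hu (fun c => ∑ y : H', Φ c.val (∑ t, u' t * D' y t).val),
      sum_val_range p (fun i => ∑ y : H', Φ i (∑ t, u' t * D' y t).val)]
  have e3 : (p' : ℝ) * ((p : ℝ) * ∑ x : H, ∑ y : H',
      Φ (∑ t, u t * D x t).val (∑ t, u' t * D' y t).val) =
      (Fintype.card H : ℝ) * ((Fintype.card H' : ℝ) *
        ∑ i ∈ Finset.range p, ∑ j ∈ Finset.range p', Φ i j) := by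
    rw [e2, mul_left_comm, Finset.mul_sum (Finset.range p) _ (p' : ℝ),
      Finset.sum_congr rfl fun i _ => e1 i, ← Finset.mul_sum]
  have h0 : (Fintype.card H : ℝ) * ((Fintype.card H' : ℝ) *
      ∑ i ∈ Finset.range p, ∑ j ∈ Finset.range p', Φ i j) ≤ 0 := by
    refine mul_nonpos_of_nonneg_of_nonpos (Nat.cast_nonneg _) ?_
    exact mul_nonpos_of_nonneg_of_nonpos (Nat.cast_nonneg _) hΦ
  rw [← e3] at h0
  by_contra hcon
  push_neg at hcon
  have : 0 < (p' : ℝ) * ((p : ℝ) * ∑ x : H, ∑ y : H',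
      Φ (∑ t, u t * D x t).val (∑ t, u' t * D' y t).val) := by positivity
  linarith

end Pool.Agent.K6.H25.MC
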