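import Pool.Agent.K6.H25.MC.Stm
import Pool.Agent.H399R5.TaskB

/-! Piece WFE (helper78): filtration with bounded fundamental domains around a finite set; this is
`H399R5.taskB` with the single element replaced by a finite set. -/

set_option autoImplicit false

open scoped Pointwise commutatorElement

open H399R5

namespace Pool.Agent.K6.H25.MC

/-- compact generation part -/
theorem top_partE {G : Type*} [Group G] [TopologicalSpace G] [IsTopologicalGroup G] [T2Space G] [LocallyCompactSpace G] (Γ : Subgroup G) (hΓ : DiscreteTopology Γ)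
    (hc : CompactSpace (G ⧸ Γ)) (E : Finset G) :
    ∃ (K : Set G) (T : Finset G), IsCompact K ∧ (∀ t ∈ T, t ∈ Γ) ∧
      ∀ x ∈ Subgroup.closure ((T : Set G) ∪ (E : Set G)), ∃ c ∈ K, ∃ γ ∈ Subgroup.closure (T : Set G),
        x = c * γ := by
  classical
  obtain ⟨V, hVc, hV⟩ := exists_compact_mem_nhds (1 : G)
  set G1 := Subgroup.closure (V ∪ (E : Set G)) with hG1
  have hVG : V ⊆ (G1 : Set G) := fun x hx => Subgroup.subset_closure (Or.inl hx)
  have hgG : ∀ g ∈ (E : Set G), g ∈ G1 := fun g hg => Subgroup.subset_closure (Or.inr hg)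
  have hG1o : IsOpen (G1 : Set G) := G1.isOpen_of_mem_nhds (Filter.mem_of_superset hV hVG)
  -- the orbit is compact
  set O : Set (G ⧸ Γ) := (QuotientGroup.mk : G → G ⧸ Γ) '' (G1 : Set G) with hO
  have hOcl : IsClosed O := by
    rw [← isOpen_compl_iff]
    rw [← (QuotientGroup.isQuotientMap_mk (N := Γ)).isOpen_preimage]
    rw [isOpen_iff_mem_nhds]
    intro y hy
    have hop : IsOpen ((fun z => z * y⁻¹) ⁻¹' (G1 : Set G)) :=
      hG1o.preimage (continuous_mul_right _)
    refine Filter.mem_of_superset (hop.mem_nhds (by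
      show y * y⁻¹ ∈ G1
      rw [mul_inv_cancel]; exact G1.one_mem)) ?_
    intro z hz hz2
    apply hy
    obtain ⟨a, ha, e⟩ := hz2
    refine ⟨(z * y⁻¹)⁻¹ * a, G1.mul_mem (G1.inv_mem hz) ha, ?_⟩
    rw [QuotientGroup.eq] at e ⊢
    have : ((z * y⁻¹)⁻¹ * a)⁻¹ * y = a⁻¹ * z := by group
    rw [this]; exact e
  have hOc : IsCompact O := hOcl.isCompact
  obtain ⟨F, hF⟩ := hOc.elim_finite_subcover
    (fun y : G1 => (QuotientGroup.mk : G → G ⧸ Γ) '' ((fun v => (y : G) * v) '' interior V))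
    (fun y => by
      apply QuotientGroup.isOpenMap_coe
      exact (Homeomorph.mulLeft (y : G)).isOpenMap _ isOpen_interior)
    (by
      rintro _ ⟨x, hx, rfl⟩
      refine Set.mem_iUnion.2 ⟨⟨x, hx⟩, x, ⟨1, mem_interior_iff_mem_nhds.2 hV, mul_one x⟩, rfl⟩)
  set K1 : Set G := {1} ∪ ⋃ y ∈ F, (fun v => (y : G) * v) '' V with hK1
  have hK1c : IsCompact K1 := by
    apply isCompact_singleton.union
    exact F.isCompact_biUnion (fun y _ => hVc.image (continuous_mul_left _))
  have h1K : (1 : G) ∈ K1 := Or.inl rfl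
  have hK1G : K1 ⊆ (G1 : Set G) := by
    rintro x (hx | hx)
    · rw [Set.mem_singleton_iff.1 hx]; exact G1.one_mem
    · simp only [Set.mem_iUnion] at hx
      obtain ⟨y, hy, v, hv, rfl⟩ := hx
      exact G1.mul_mem y.2 (hVG hv)
  have hcov : ∀ x ∈ G1, ∃ κ ∈ K1, κ⁻¹ * x ∈ Γ := by
    intro x hx
    have := hF ⟨x, hx, rfl⟩
    simp only [Set.mem_iUnion] at this
    obtain ⟨y, hy, z, ⟨v, hv, rfl⟩, e⟩ := this
    refine ⟨(y : G) * v, Or.inr ?_, (QuotientGroup.eq).1 e⟩
    simp only [Set.mem_iUnion]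
    exact ⟨y, hy, v, interior_subset hv, rfl⟩
  -- the finite set
  set M' : Set G := (V ∪ (E : Set G)) ∪ ((V ∪ (E : Set G))⁻¹ ∪ {1}) with hM'
  have hM'c : IsCompact M' :=
    (hVc.union E.finite_toSet.isCompact).union ((hVc.union E.finite_toSet.isCompact).inv.union
      isCompact_singleton)
  have hCc : IsCompact (K1⁻¹ * M' * K1) := (hK1c.inv.mul hM'c).mul hK1c
  have hWc : IsCompact ((Γ : Set G) ∩ (K1⁻¹ * M' * K1)) :=
    hCc.inter_left Γ.isClosed_of_discrete
  have hWf : ((Γ : Set G) ∩ (K1⁻¹ * M' * K1)).Finite := by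
    apply hWc.finite
    have hd : IsDiscrete (Γ : Set G) := ⟨hΓ⟩
    exact hd.mono Set.inter_subset_left
  set T := hWf.toFinset with hT
  have hTmem : ∀ t, t ∈ T ↔ t ∈ Γ ∧ t ∈ K1⁻¹ * M' * K1 := by
    intro t; rw [hT, Set.Finite.mem_toFinset]; rfl
  have hM'G : M' ⊆ (G1 : Set G) := by
    rintro x ((hx | hx) | (hx | hx))
    · exact hVG hx
    · exact hgG x hx
    · have : x⁻¹ ∈ G1 := by
        rcases hx with h | h
        · exact hVG h
        · exact hgG _ h
      simpa using G1.inv_mem this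
    · rw [Set.mem_singleton_iff.1 hx]; exact G1.one_mem
  have hTG : ∀ t ∈ T, t ∈ G1 := by
    intro t ht
    obtain ⟨-, a, ⟨b, hb, m, hm, rfl⟩, κ, hκ, rfl⟩ := (hTmem t).1 ht
    have hb' : b ∈ G1 := by
      have : b⁻¹ ∈ G1 := hK1G hb
      simpa using G1.inv_mem this
    exact G1.mul_mem (G1.mul_mem hb' (hM'G hm)) (hK1G hκ)
  have hstep : ∀ m ∈ M', ∀ y, (∃ κ ∈ K1, κ⁻¹ * y ∈ Subgroup.closure (T : Set G)) →
      ∃ κ ∈ K1, κ⁻¹ * (m * y) ∈ Subgroup.closure (T : Set G) := by
    rintro m hm y ⟨κ, hκ, hy⟩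
    obtain ⟨κ', hκ', hγ⟩ := hcov (m * κ) (G1.mul_mem (hM'G hm) (hK1G hκ))
    refine ⟨κ', hκ', ?_⟩
    have e : κ'⁻¹ * (m * y) = (κ'⁻¹ * (m * κ)) * (κ⁻¹ * y) := by group
    rw [e]
    refine Subgroup.mul_mem _ (Subgroup.subset_closure ?_) hy
    rw [Finset.mem_coe, hTmem]
    refine ⟨hγ, ?_⟩
    rw [← mul_assoc]
    exact Set.mul_mem_mul (Set.mul_mem_mul (Set.inv_mem_inv.2 hκ') hm) hκ
  have hall : ∀ x ∈ G1, ∃ κ ∈ K1, κ⁻¹ * x ∈ Subgroup.closure (T : Set G) := by
    intro x hx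
    induction hx using Subgroup.closure_induction_left with
    | one => exact ⟨1, h1K, by simpa using Subgroup.one_mem _⟩
    | mul_left m hm y _ ih => exact hstep m (Or.inl hm) y ih
    | inv_mul_cancel m hm y _ ih =>
      exact hstep m⁻¹ (Or.inr (Or.inl (Set.inv_mem_inv.2 hm))) y ih
  refine ⟨K1, T, hK1c, fun t ht => ((hTmem t).1 ht).1, ?_⟩
  intro x hx
  have hxG : x ∈ G1 := by
    have hle : Subgroup.closure ((T : Set G) ∪ (E : Set G)) ≤ G1 := by
      rw [Subgroup.closure_le]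
      rintro y (hy | hy)
      · exact hTG y hy
      · exact hgG y hy
    exact hle hx
  obtain ⟨κ, hκ, h⟩ := hall x hxG
  exact ⟨κ, hκ, κ⁻¹ * x, h, by group⟩

theorem t_WFE : S_WFE := by
  intro G _ _ _ _ _ Γ k hk hΓ hc E
  classical
  obtain ⟨K0, T, hK0, hTΓ, hcov⟩ := top_partE Γ hΓ hc E
  set L := Subgroup.closure ((T : Set G) ∪ (E : Set G)) with hL
  have hgL : ∀ g ∈ E, g ∈ L := fun g hg => Subgroup.subset_closure (Or.inr hg)
  have hTL : (T : Set G) ⊆ (L : Set G) := fun t ht => Subgroup.subset_closure (Or.inl ht)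
  have hTle : Subgroup.closure (T : Set G) ≤ L := (Subgroup.closure_le L).2 hTL
  have hTleΓ : Subgroup.closure (T : Set G) ≤ Γ := (Subgroup.closure_le Γ).2 hTΓ
  have hinj : Function.Injective (Subtype.val : L → G) := Subtype.val_injective
  have hSf : ((Subtype.val : L → G) ⁻¹' ((T : Set G) ∪ (E : Set G))).Finite :=
    (T.finite_toSet.union E.finite_toSet).preimage hinj.injOn
  have hTf : ((Subtype.val : L → G) ⁻¹' (T : Set G)).Finite :=
    T.finite_toSet.preimage hinj.injOn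
  have hS : Subgroup.closure ((hSf.toFinset : Finset L) : Set L) = ⊤ := by
    rw [Set.Finite.coe_toFinset]
    exact Subgroup.closure_closure_coe_preimage
  have hmap : (Subgroup.closure ((hTf.toFinset : Finset L) : Set L)).map L.subtype =
      Subgroup.closure (T : Set G) := by
    rw [Set.Finite.coe_toFinset, MonoidHom.map_closure]
    congr 1
    ext x
    constructor
    · rintro ⟨y, hy, rfl⟩; exact hy
    · intro hx; exact ⟨⟨x, hTL hx⟩, hx, rfl⟩
  have hB0 : Bd L.subtype {c : L | (c : G) ∈ K0} := ⟨K0, hK0, fun c hc => hc⟩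
  have h0 : ∀ x : L, ∃ c ∈ {c : L | (c : G) ∈ K0},
      ∃ γ ∈ Subgroup.closure ((hTf.toFinset : Finset L) : Set L), x = c * γ := by
    intro x
    obtain ⟨c, hc, γ, hγ, e⟩ := hcov (x : G) x.2
    have hγ2 := hγ
    rw [← hmap, Subgroup.mem_map] at hγ2
    obtain ⟨γ', hγ', e'⟩ := hγ2
    have hcx : ((x * γ'⁻¹ : L) : G) = c := by
      rw [Subgroup.coe_mul, Subgroup.coe_inv]
      have e'' : (γ' : G) = γ := e'
      rw [e'', e]; group
    refine ⟨x * γ'⁻¹, ?_, γ', hγ', by group⟩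
    show ((x * γ'⁻¹ : L) : G) ∈ K0
    rw [hcx]; exact hc
  have hkL : (⊤ : Subgroup L).lowerCentralSeries k = ⊥ := by
    rw [← Subgroup.map_subtype_inj, Subgroup.map_bot, Subgroup.top_subtype_lowerCentralSeries,
      eq_bot_iff, ← hk]
    exact Subgroup.lowerCentralSeries_mono k le_top
  have hfin := fun i => final_alg L.subtype hSf.toFinset hTf.toFinset hS _ hB0 h0 k hkL k i
    (Nat.le_add_left k i)
  choose C hCB hCsub hC using hfin
  choose Kf hKf hKf2 using hCB
  let idx : ℕ → ℕ := fun i => min (i - 1) k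
  have hidx : ∀ i, (⊤ : Subgroup L).lowerCentralSeries (idx i) =
      (⊤ : Subgroup L).lowerCentralSeries (i - 1) := by
    intro i
    rcases le_total (i - 1) k with h | h
    · show (⊤ : Subgroup L).lowerCentralSeries (min (i - 1) k) = _
      rw [min_eq_left h]
    · show (⊤ : Subgroup L).lowerCentralSeries (min (i - 1) k) = _
      rw [min_eq_right h, hkL, eq_comm, eq_bot_iff, ← hkL]
      exact (⊤ : Subgroup L).lowerCentralSeries_antitone h
  refine ⟨L, fun i => (⊤ : Subgroup L).lowerCentralSeries (i - 1), ⋃ j ∈ Finset.range (k + 1), Kf j,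
    fun i => C (idx i), hgL, (Finset.range (k + 1)).isCompact_biUnion (fun j _ => hKf j), rfl, rfl,
    hkL, ?_, ?_, ?_, ?_, ?_⟩
  · intro a b hab
    exact (⊤ : Subgroup L).lowerCentralSeries_antitone (Nat.sub_le_sub_right hab 1)
  · intro i j
    have hn : ∀ m, ((⊤ : Subgroup L).lowerCentralSeries m).Normal := fun m => inferInstance
    rcases Nat.eq_zero_or_pos i with hi | hi
    · subst hi
      have : ((⊤ : Subgroup L).lowerCentralSeries (j - 1)).Normal := hn _
      show ⁅(⊤ : Subgroup L).lowerCentralSeries (0 - 1),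
        (⊤ : Subgroup L).lowerCentralSeries (j - 1)⁆ ≤
        (⊤ : Subgroup L).lowerCentralSeries (0 + j - 1)
      rw [Nat.zero_add]
      exact Subgroup.commutator_le_right _ _
    · rcases Nat.eq_zero_or_pos j with hj | hj
      · subst hj
        have : ((⊤ : Subgroup L).lowerCentralSeries (i - 1)).Normal := hn _
        show ⁅(⊤ : Subgroup L).lowerCentralSeries (i - 1),
          (⊤ : Subgroup L).lowerCentralSeries (0 - 1)⁆ ≤
          (⊤ : Subgroup L).lowerCentralSeries (i + 0 - 1)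
        exact Subgroup.commutator_le_left _ _
      · have h := lcs_comm (L := L) (j - 1) (i - 1)
        have e : i - 1 + (j - 1) + 1 = i + j - 1 := by omega
        rw [e] at h
        exact h
  · intro i
    show C (idx i) ⊆ (((⊤ : Subgroup L).lowerCentralSeries (i - 1) : Subgroup L) : Set L)
    rw [← hidx i]
    exact hCsub (idx i)
  · intro i c hc
    simp only [Set.mem_iUnion]
    refine ⟨idx i, Finset.mem_range.2 ?_, hKf2 (idx i) c hc⟩
    exact Nat.lt_succ_of_le (min_le_right _ _)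
  · intro i x hx
    have hx' : x ∈ (⊤ : Subgroup L).lowerCentralSeries (idx i) := by rw [hidx i]; exact hx
    obtain ⟨c, hc, h⟩ := hC (idx i) x hx'
    refine ⟨c, hc, hTleΓ ?_⟩
    rw [← hmap]
    exact ⟨c⁻¹ * x, h, rfl⟩

end Pool.Agent.K6.H25.MC
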